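import Pool.Agent.V11298.PI.Dif

/-! # Collisions of random polynomials, and difference sums over image sets -/

set_option autoImplicit false

namespace Pool.Agent.V11298.PI

open Finset

variable {p : ℕ} [Fact p.Prime]

lemma shrink {n : ℕ} (C : Finset (Fin n → ZMod p)) (V : Finset (ZMod p)) (v w : ZMod p) (hv : v ∉ V)
    (hvw : v ≠ w) (hn : V.card + 1 < n)
    (hC : ∀ c ∈ C, ∀ d : Fin n → ZMod p, (∀ x ∈ V, ev d x = 0) → c + d ∈ C) :
    p * (C.filter fun c => ev c v = ev c w).card ≤ C.card := by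
  classical
  obtain ⟨q, hq, hqv⟩ := exists_vanish (n := n) (insert w V) v (by simp [hvw, hv])
    (lt_of_le_of_lt (card_insert_le _ _) hn)
  have h1 : ((univ : Finset (ZMod p)) ×ˢ (C.filter fun c => ev c v = ev c w)).card ≤ C.card := by
    refine card_le_card_of_injOn (fun x => x.2 + x.1 • q) ?_ ?_
    · intro x hx
      have h2 := (mem_product.1 (mem_coe.1 hx)).2
      refine mem_coe.2 (hC _ (mem_filter.1 h2).1 _ fun y hy => ?_)
      rw [ev_smul, hq y (mem_insert_of_mem hy), mul_zero]
    · intro x hx y hy hxy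
      have h2 := (mem_filter.1 (mem_product.1 (mem_coe.1 hx)).2).2
      have h3 := (mem_filter.1 (mem_product.1 (mem_coe.1 hy)).2).2
      have h4 : ev (x.2 + x.1 • q) v - ev (x.2 + x.1 • q) w = ev (y.2 + y.1 • q) v - ev (y.2 + y.1 • q) w := by
        have h5 : x.2 + x.1 • q = y.2 + y.1 • q := hxy
        rw [h5]
      rw [ev_add, ev_add, ev_add, ev_add, ev_smul, ev_smul, ev_smul, ev_smul, hq w (mem_insert_self _ _), h2, h3]
        at h4
      have h5 : x.1 = y.1 := by
        have h6 : x.1 * ev q v = y.1 * ev q v := by linear_combination h4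
        exact mul_right_cancel₀ hqv h6
      have h7 : x.2 = y.2 := by
        have h8 : x.2 + x.1 • q = y.2 + y.1 • q := hxy
        rw [h5] at h8
        exact add_right_cancel h8
      exact Prod.ext h5 h7
  rwa [card_product, card_univ, ZMod.card] at h1

lemma tuple_col {ι : Type} [DecidableEq ι] (a b : ι → ZMod p) (hab : ∀ i, a i ≠ b i) (n : ℕ)
    (I : Finset ι) (hn : 2 * I.card ≤ n) : ∃ s : ℕ, (I.image a ∪ I.image b).card ≤ 2 * s ∧
      p ^ s * (univ.filter fun c : Fin n → ZMod p => ∀ i ∈ I, ev c (a i) = ev c (b i)).card ≤ p ^ n := by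
  classical
  induction I using Finset.induction_on with
  | empty =>
    refine ⟨0, by simp, ?_⟩
    simp [ZMod.card]
  | insert i I hi ih =>
    rw [card_insert_of_notMem hi] at hn
    obtain ⟨s, hs, hcount⟩ := ih (by omega)
    set V := I.image a ∪ I.image b with hV
    set C := univ.filter fun c : Fin n → ZMod p => ∀ i ∈ I, ev c (a i) = ev c (b i) with hC
    have hVc : V.card ≤ 2 * I.card := by
      refine (card_union_le _ _).trans ?_
      have h1 : (I.image a).card ≤ I.card := card_image_le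
      have h2 : (I.image b).card ≤ I.card := card_image_le
      omega
    have hCd : ∀ c ∈ C, ∀ d : Fin n → ZMod p, (∀ x ∈ V, ev d x = 0) → c + d ∈ C := by
      intro c hc d hd
      refine mem_filter.2 ⟨mem_univ _, fun j hj => ?_⟩
      rw [ev_add, ev_add, (mem_filter.1 hc).2 j hj, hd (a j) (mem_union_left _ (mem_image_of_mem a hj)),
        hd (b j) (mem_union_right _ (mem_image_of_mem b hj))]
    have hnew : (univ.filter fun c : Fin n → ZMod p => ∀ j ∈ insert i I, ev c (a j) = ev c (b j)) =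
        C.filter fun c => ev c (a i) = ev c (b i) := by
      ext c
      simp only [mem_filter, mem_univ, true_and, hC, forall_mem_insert]
      exact and_comm
    have himg : (insert i I).image a ∪ (insert i I).image b ⊆ insert (a i) (insert (b i) V) := by
      intro x hx
      simp only [mem_union, image_insert, mem_insert, hV] at hx ⊢
      tauto
    rw [hnew]
    by_cases h : a i ∈ V ∧ b i ∈ V
    · refine ⟨s, ?_, le_trans (Nat.mul_le_mul_left _ (card_le_card (filter_subset _ _))) hcount⟩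
      refine (card_le_card himg).trans ?_
      rw [insert_eq_self.2 h.2, insert_eq_self.2 h.1]
      exact hs
    · have hcard : ((insert i I).image a ∪ (insert i I).image b).card ≤ 2 * (s + 1) := by
        refine (card_le_card himg).trans ?_
        have h1 := card_insert_le (a i) (insert (b i) V)
        have h2 := card_insert_le (b i) V
        omega
      have hsh : p * (C.filter fun c => ev c (a i) = ev c (b i)).card ≤ C.card := by
        by_cases ha : a i ∈ V
        · have hb : b i ∉ V := fun hb => h ⟨ha, hb⟩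
          have h3 := shrink C V (b i) (a i) hb (hab i).symm (by omega) hCd
          have h4 : (C.filter fun c => ev c (a i) = ev c (b i)) = C.filter fun c => ev c (b i) = ev c (a i) := by
            ext c
            simp only [mem_filter]
            exact and_congr_right fun _ => eq_comm
          rw [h4]
          exact h3
        · exact shrink C V (a i) (b i) ha (hab i) (by omega) hCd
      refine ⟨s + 1, hcard, ?_⟩
      calc p ^ (s + 1) * (C.filter fun c => ev c (a i) = ev c (b i)).card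
          = p ^ s * (p * (C.filter fun c => ev c (a i) = ev c (b i)).card) := by ring
        _ ≤ p ^ s * C.card := Nat.mul_le_mul_left _ hsh
        _ ≤ p ^ n := hcount

open Classical in
/-- the number of collisions -/
noncomputable def col {n : ℕ} (A : Finset (ZMod p)) (c : Fin n → ZMod p) : ℝ :=
  ∑ a ∈ A, ∑ b ∈ A, if a ≠ b ∧ ev c a = ev c b then (1 : ℝ) else 0

lemma col_nonneg {n : ℕ} (A : Finset (ZMod p)) (c : Fin n → ZMod p) : 0 ≤ col A c := by
  unfold col
  refine sum_nonneg fun a _ => sum_nonneg fun b _ => ?_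
  split_ifs <;> norm_num

/-- **Moments of the number of collisions.** -/
theorem moment_col (A : Finset (ZMod p)) (m n : ℕ) (hm : 1 ≤ m) (hmn : 2 * m ≤ n) :
    ∑ c : Fin n → ZMod p, col A c ^ m ≤
      (2 * m : ℝ) ^ (2 * m) * (p : ℝ) ^ n * (max 1 (A.card / Real.sqrt p)) ^ (2 * m) := by
  classical
  have hp0 : (0 : ℝ) < p := by exact_mod_cast (Fact.out : p.Prime).pos
  have hp1 : (1 : ℝ) ≤ p := by exact_mod_cast (Fact.out : p.Prime).one_le
  have hs0 : 0 < Real.sqrt p := Real.sqrt_pos.2 hp0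
  have hs1 : 1 ≤ Real.sqrt p := by
    rw [Real.one_le_sqrt]
    exact hp1
  have hss : Real.sqrt p ^ 2 = p := Real.sq_sqrt hp0.le
  have hne : Nonempty (Fin m ⊕ Fin m) := ⟨Sum.inl ⟨0, hm⟩⟩
  have h1 : ∀ c : Fin n → ZMod p, col A c ^ m = ∑ β ∈ Fintype.piFinset (fun _ : Fin m ⊕ Fin m => A),
      ∏ i : Fin m, (if β (Sum.inl i) ≠ β (Sum.inr i) ∧ ev c (β (Sum.inl i)) = ev c (β (Sum.inr i)) then (1 : ℝ)
        else 0) := by
    intro c
    rw [← expand2 A (fun (_ : Fin m) a b => if a ≠ b ∧ ev c a = ev c b then (1 : ℝ) else 0)]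
    rw [prod_const, card_univ, Fintype.card_fin]
    unfold col
    rfl
  rw [sum_congr rfl fun c _ => h1 c, sum_comm]
  have h2 : ∀ β : Fin m ⊕ Fin m → ZMod p, ∑ c : Fin n → ZMod p,
      ∏ i : Fin m, (if β (Sum.inl i) ≠ β (Sum.inr i) ∧ ev c (β (Sum.inl i)) = ev c (β (Sum.inr i)) then (1 : ℝ)
        else 0) ≤ (p : ℝ) ^ n * (1 / Real.sqrt p) ^ (univ.image β).card := by
    intro β
    by_cases hβ : ∀ i : Fin m, β (Sum.inl i) ≠ β (Sum.inr i)
    · obtain ⟨s, hs, hcount⟩ := tuple_col (fun i => β (Sum.inl i)) (fun i => β (Sum.inr i)) hβ n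
        (univ : Finset (Fin m)) (by rw [card_univ, Fintype.card_fin]; exact hmn)
      have h3 : ∑ c : Fin n → ZMod p,
          ∏ i : Fin m, (if β (Sum.inl i) ≠ β (Sum.inr i) ∧ ev c (β (Sum.inl i)) = ev c (β (Sum.inr i)) then (1 : ℝ)
          else 0) = ((univ.filter fun c : Fin n → ZMod p => ∀ i ∈ (univ : Finset (Fin m)),
            ev c (β (Sum.inl i)) = ev c (β (Sum.inr i))).card : ℝ) := by
        rw [card_filter]
        push_cast
        refine sum_congr rfl fun c _ => ?_
        rw [prod_ite_zero]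
        simp only [prod_const_one, hβ, ne_eq, not_false_eq_true, true_and, mem_univ, forall_true_left]
      rw [h3]
      have h4 : (p : ℝ) ^ s * ((univ.filter fun c : Fin n → ZMod p => ∀ i ∈ (univ : Finset (Fin m)),
            ev c (β (Sum.inl i)) = ev c (β (Sum.inr i))).card : ℝ) ≤ (p : ℝ) ^ n := by
        have h4' : p ^ s * (univ.filter fun c : Fin n → ZMod p => ∀ i ∈ (univ : Finset (Fin m)),
            ev c (β (Sum.inl i)) = ev c (β (Sum.inr i))).card ≤ p ^ n := by
          convert hcount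
        exact_mod_cast h4'
      have h5 : (univ.image β).card ≤ 2 * s := by
        refine le_trans (card_le_card ?_) hs
        intro x hx
        obtain ⟨j, _, rfl⟩ := mem_image.1 hx
        rcases j with i | i
        · exact mem_union_left _ (mem_image.2 ⟨i, mem_univ _, rfl⟩)
        · exact mem_union_right _ (mem_image.2 ⟨i, mem_univ _, rfl⟩)
      have h6 : Real.sqrt p ^ (univ.image β).card ≤ (p : ℝ) ^ s := by
        calc Real.sqrt p ^ (univ.image β).card ≤ Real.sqrt p ^ (2 * s) := pow_le_pow_right₀ hs1 h5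
          _ = (p : ℝ) ^ s := by rw [pow_mul, hss]
      rw [one_div, inv_pow, ← div_eq_mul_inv, le_div_iff₀ (by positivity)]
      calc _ ≤ ((univ.filter fun c : Fin n → ZMod p => ∀ i ∈ (univ : Finset (Fin m)),
            ev c (β (Sum.inl i)) = ev c (β (Sum.inr i))).card : ℝ) * (p : ℝ) ^ s := by gcongr
        _ ≤ _ := by rw [mul_comm]; exact h4
    · push Not at hβ
      obtain ⟨i, hi⟩ := hβ
      rw [sum_eq_zero]
      · positivity
      · intro c _
        refine prod_eq_zero (mem_univ i) ?_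
        rw [if_neg]
        exact fun h => h.1 hi
  refine (sum_le_sum fun β _ => h2 β).trans ?_
  rw [← mul_sum]
  have h3 := kernels (ι := Fin m ⊕ Fin m) A (1 / Real.sqrt p) (by positivity)
  have h4 : ∑ σ : Fin m ⊕ Fin m → Fin m ⊕ Fin m, ((A.card : ℝ) * (1 / Real.sqrt p)) ^ (univ.image σ).card ≤
      (2 * m : ℝ) ^ (2 * m) * (max 1 (A.card / Real.sqrt p)) ^ (2 * m) := by
    have hcι : Fintype.card (Fin m ⊕ Fin m) = 2 * m := by
      rw [Fintype.card_sum, Fintype.card_fin]
      ring
    refine (sum_le_sum (g := fun _ => (max 1 (A.card / Real.sqrt p)) ^ (2 * m)) fun σ _ => ?_).trans ?_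
    · rw [mul_one_div]
      have h5 : (univ.image σ).card ≤ 2 * m := by
        have h6 : (univ.image σ).card ≤ (univ : Finset (Fin m ⊕ Fin m)).card := card_image_le
        rw [card_univ, hcι] at h6
        exact h6
      exact (pow_le_pow_left₀ (by positivity) (le_max_right _ _) _).trans
        (pow_le_pow_right₀ (le_max_left _ _) h5)
    · rw [sum_const, card_univ, nsmul_eq_mul, Fintype.card_fun, hcι]
      push_cast
      exact le_rfl
  calc (p : ℝ) ^ n * ∑ β ∈ Fintype.piFinset (fun _ : Fin m ⊕ Fin m => A), (1 / Real.sqrt p) ^ (univ.image β).card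
      ≤ (p : ℝ) ^ n * ((2 * m : ℝ) ^ (2 * m) * (max 1 (A.card / Real.sqrt p)) ^ (2 * m)) :=
        mul_le_mul_of_nonneg_left (h3.trans h4) (by positivity)
    _ = _ := by ring

/-- the image set of a set with few collisions -/
theorem image_bound {n : ℕ} (c : Fin n → ZMod p) (A : Finset (ZMod p)) :
    (A.card : ℝ) ≤ (A.image (ev c)).card + col A c ∧ ∀ χ : DirichletCharacter ℂ p,
      ‖∑ x ∈ A.image (ev c), ∑ y ∈ A.image (ev c), χ (x - y)‖ ≤
        ‖∑ a ∈ A, ∑ b ∈ A, χ (ev c a - ev c b)‖ + 2 * A.card * col A c := by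
  classical
  obtain ⟨T, hTA, hinj, himg⟩ : ∃ T ⊆ A, Set.InjOn (ev c) (T : Set (ZMod p)) ∧ T.image (ev c) = A.image (ev c) := by
    obtain ⟨u, hu1, hu2, hu3⟩ := (Set.surjOn_image (ev c) (A : Set (ZMod p))).exists_subset_injOn_image_eq
    have hfin : u.Finite := (Finset.finite_toSet A).subset hu1
    refine ⟨hfin.toFinset, ?_, ?_, ?_⟩
    · intro x hx
      exact mem_coe.1 (hu1 ((Set.Finite.mem_toFinset hfin).1 hx))
    · intro x hx y hy hxy
      exact hu2 ((Set.Finite.mem_toFinset hfin).1 (mem_coe.1 hx)) ((Set.Finite.mem_toFinset hfin).1 (mem_coe.1 hy)) hxy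
    · apply coe_injective
      rw [coe_image, coe_image, Set.Finite.coe_toFinset, hu3]
  have hcard : (A.image (ev c)).card = T.card := by
    rw [← himg, card_image_of_injOn hinj]
  have hcol : ((A \ T).card : ℝ) ≤ col A c := by
    have hch : ∀ a ∈ A \ T, ∃ b ∈ T, ev c b = ev c a := by
      intro a ha
      have h1 : ev c a ∈ T.image (ev c) := by
        rw [himg]
        exact mem_image_of_mem _ (mem_sdiff.1 ha).1
      exact mem_image.1 h1
    unfold col
    calc ((A \ T).card : ℝ) = ∑ a ∈ A \ T, (1 : ℝ) := by simp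
      _ ≤ ∑ a ∈ A \ T, ∑ b ∈ A, (if a ≠ b ∧ ev c a = ev c b then (1 : ℝ) else 0) := by
          refine sum_le_sum fun a ha => ?_
          obtain ⟨b, hb, hab⟩ := hch a ha
          have hne : a ≠ b := fun h => (mem_sdiff.1 ha).2 (h ▸ hb)
          calc (1 : ℝ) = if a ≠ b ∧ ev c a = ev c b then (1 : ℝ) else 0 := by rw [if_pos ⟨hne, hab.symm⟩]
            _ ≤ _ := single_le_sum (f := fun b => if a ≠ b ∧ ev c a = ev c b then (1 : ℝ) else 0)
                (fun b _ => by split_ifs <;> norm_num) (hTA hb)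
      _ ≤ _ := sum_le_sum_of_subset_of_nonneg sdiff_subset fun a _ _ =>
          sum_nonneg fun b _ => by split_ifs <;> norm_num
  have hAT : (A.card : ℝ) = T.card + (A \ T).card := by
    have h1 := card_sdiff_add_card_eq_card hTA
    have h2 : (A \ T).card + T.card = A.card := h1
    rw [← h2]
    push_cast
    ring
  refine ⟨?_, fun χ => ?_⟩
  · rw [hcard, hAT]
    linarith
  · have h1 : ∑ x ∈ A.image (ev c), ∑ y ∈ A.image (ev c), χ (x - y) =
        ∑ a ∈ T, ∑ b ∈ T, χ (ev c a - ev c b) := by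
      rw [← himg, sum_image hinj]
      refine sum_congr rfl fun a _ => ?_
      rw [sum_image hinj]
    have h2 : ∑ a ∈ A, ∑ b ∈ A, χ (ev c a - ev c b) = ∑ a ∈ T, ∑ b ∈ T, χ (ev c a - ev c b) +
        (∑ a ∈ T, ∑ b ∈ A \ T, χ (ev c a - ev c b) + ∑ a ∈ A \ T, ∑ b ∈ A, χ (ev c a - ev c b)) := by
      rw [← add_assoc, ← sum_add_distrib]
      have h3 : ∀ a : ZMod p, ∑ b ∈ T, χ (ev c a - ev c b) + ∑ b ∈ A \ T, χ (ev c a - ev c b) =
          ∑ b ∈ A, χ (ev c a - ev c b) := by
        intro a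
        rw [add_comm, sum_sdiff hTA]
      rw [sum_congr rfl fun a _ => h3 a, add_comm, sum_sdiff hTA]
    have hn1 : ‖∑ a ∈ T, ∑ b ∈ A \ T, χ (ev c a - ev c b)‖ ≤ T.card * (A \ T).card := by
      refine (norm_sum_le _ _).trans ?_
      refine (sum_le_card_nsmul _ _ ((A \ T).card : ℝ) fun a _ => ?_).trans (by simp)
      refine (norm_sum_le _ _).trans ?_
      refine (sum_le_card_nsmul _ _ 1 fun y _ => χ.norm_le_one _).trans (by simp)
    have hn2 : ‖∑ a ∈ A \ T, ∑ b ∈ A, χ (ev c a - ev c b)‖ ≤ (A \ T).card * A.card := by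
      refine (norm_sum_le _ _).trans ?_
      refine (sum_le_card_nsmul _ _ (A.card : ℝ) fun a _ => ?_).trans (by simp)
      refine (norm_sum_le _ _).trans ?_
      refine (sum_le_card_nsmul _ _ 1 fun y _ => χ.norm_le_one _).trans (by simp)
    rw [h1]
    have h4 : ∑ a ∈ T, ∑ b ∈ T, χ (ev c a - ev c b) = ∑ a ∈ A, ∑ b ∈ A, χ (ev c a - ev c b) -
        (∑ a ∈ T, ∑ b ∈ A \ T, χ (ev c a - ev c b) + ∑ a ∈ A \ T, ∑ b ∈ A, χ (ev c a - ev c b)) := by
      rw [h2]
      ring
    rw [h4]
    refine (norm_sub_le _ _).trans ?_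
    have h5 := norm_add_le (∑ a ∈ T, ∑ b ∈ A \ T, χ (ev c a - ev c b)) (∑ a ∈ A \ T, ∑ b ∈ A, χ (ev c a - ev c b))
    have hTle : (T.card : ℝ) ≤ A.card := Nat.cast_le.2 (card_le_card hTA)
    have hc0 : (0 : ℝ) ≤ (A \ T).card := Nat.cast_nonneg _
    have hA0 : (0 : ℝ) ≤ A.card := Nat.cast_nonneg _
    have h6 : (T.card : ℝ) * (A \ T).card ≤ A.card * col A c := mul_le_mul hTle hcol hc0 hA0
    have h7 : ((A \ T).card : ℝ) * A.card ≤ A.card * col A c := by
      rw [mul_comm]
      exact mul_le_mul_of_nonneg_left hcol hA0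
    linarith

/-- the bound of Erdős and Shapiro -/
lemma erdos_shapiro (χ : DirichletCharacter ℂ p) (hχ : χ ≠ 1) (C : Finset (ZMod p)) :
    ‖∑ x ∈ C, ∑ y ∈ C, χ (x - y)‖ ≤ Real.sqrt p * C.card := by
  classical
  have hp0 : (0 : ℝ) < p := by exact_mod_cast (Fact.out : p.Prime).pos
  have h1 : ∑ x ∈ C, ∑ y ∈ C, χ (x - y) = ∑ y ∈ C, W χ C (-y) := by
    rw [sum_comm]
    refine sum_congr rfl fun y _ => ?_
    unfold W
    exact sum_congr rfl fun x _ => by rw [sub_eq_add_neg]
  have h2 : ‖∑ x ∈ C, ∑ y ∈ C, χ (x - y)‖ ^ 2 ≤ (Real.sqrt p * C.card) ^ 2 := by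
    rw [h1]
    calc ‖∑ y ∈ C, W χ C (-y)‖ ^ 2 ≤ (∑ y ∈ C, ‖W χ C (-y)‖) ^ 2 := by
          gcongr
          exact norm_sum_le _ _
      _ ≤ C.card * ∑ y ∈ C, ‖W χ C (-y)‖ ^ 2 := sq_sum_le_card_mul_sum_sq
      _ ≤ C.card * ∑ y, ‖W χ C (-y)‖ ^ 2 := by
          gcongr
          exact subset_univ _
      _ = C.card * ∑ y, ‖W χ C y‖ ^ 2 := by
          congr 1
          exact Equiv.sum_comp (Equiv.neg (ZMod p)) (fun y => ‖W χ C y‖ ^ 2)
      _ ≤ C.card * (p * C.card) := by
          gcongr
          exact second χ hχ C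
      _ = (Real.sqrt p * C.card) ^ 2 := by
          rw [mul_pow, Real.sq_sqrt hp0.le]
          ring
  exact (pow_le_pow_iff_left₀ (norm_nonneg _) (by positivity) (by norm_num)).1 h2

open Classical in
lemma fibre' {n : ℕ} (c : Fin n → ZMod p) (i₀ : Fin n) (hi₀ : (i₀ : ℕ) ≠ 0) (hc : c i₀ ≠ 0)
    (B : Finset (ZMod p)) (y : ZMod p) : (B.filter fun b => ev c b = y).card ≤ n := by
  obtain ⟨P, hP⟩ : ∃ P : Polynomial (ZMod p), P =
      (∑ i : Fin n, Polynomial.C (c i) * Polynomial.X ^ (i : ℕ)) - Polynomial.C y := ⟨_, rfl⟩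
  have hev : ∀ b, P.eval b = ev c b - y := by
    intro b
    rw [hP]
    simp [Polynomial.eval_finsetSum, ev]
  have hcf : P.coeff (i₀ : ℕ) = c i₀ := by
    rw [hP, Polynomial.coeff_sub, Polynomial.finsetSum_coeff]
    simp only [Polynomial.coeff_C_mul_X_pow]
    rw [Polynomial.coeff_C, if_neg hi₀, sub_zero]
    rw [sum_eq_single i₀]
    · simp
    · intro i _ hi
      rw [if_neg]
      intro h1
      exact hi (Fin.ext h1.symm)
    · intro h1
      exact absurd (mem_univ _) h1
  have hP0 : P ≠ 0 := by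
    intro h1
    rw [h1, Polynomial.coeff_zero] at hcf
    exact hc hcf.symm
  have hdeg : P.natDegree ≤ n := by
    rw [hP]
    refine (Polynomial.natDegree_sub_le _ _).trans ?_
    rw [Polynomial.natDegree_C, Nat.max_eq_left (Nat.zero_le _)]
    refine Polynomial.natDegree_sum_le_of_forall_le _ _ fun i _ => ?_
    refine (Polynomial.natDegree_C_mul_X_pow_le _ _).trans ?_
    exact i.2.le
  have hsub : (B.filter fun b => ev c b = y) ⊆ P.roots.toFinset := by
    intro b hb
    rw [Multiset.mem_toFinset, Polynomial.mem_roots hP0, Polynomial.IsRoot.def, hev, (mem_filter.1 hb).2, sub_self]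
  exact (card_le_card hsub).trans ((Multiset.toFinset_card_le _).trans ((Polynomial.card_roots' P).trans hdeg))

/-- the image of a set has at most one or at least `|A| / n` elements -/
lemma image_large {n : ℕ} (c : Fin n → ZMod p) (A : Finset (ZMod p)) :
    (A.image (ev c)).card ≤ 1 ∨ (A.card : ℝ) ≤ n * (A.image (ev c)).card := by
  classical
  by_cases h : ∃ i₀ : Fin n, (i₀ : ℕ) ≠ 0 ∧ c i₀ ≠ 0
  · obtain ⟨i₀, h1, h2⟩ := h
    right
    have h3 : A.card ≤ n * (A.image (ev c)).card := by
      refine card_le_mul_card_image A n fun y _ => ?_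
      convert fibre' c i₀ h1 h2 A y
    exact_mod_cast h3
  · left
    push Not at h
    have h1 : ∀ b b' : ZMod p, ev c b = ev c b' := by
      intro b b'
      unfold ev
      refine sum_congr rfl fun i _ => ?_
      by_cases hi : (i : ℕ) = 0
      · rw [hi]
        simp
      · rw [h i hi]
        simp
    rw [card_le_one]
    intro x hx y hy
    obtain ⟨a, _, rfl⟩ := mem_image.1 hx
    obtain ⟨b, _, rfl⟩ := mem_image.1 hy
    exact h1 a b

end Pool.Agent.V11298.PI
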