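import Pool.Agent.V11298.PI.Mom

/-! # Difference sums over polynomial images of one set: moments and collisions -/

set_option autoImplicit false

namespace Pool.Agent.V11298.PI

open Finset

/-- expansion of a product of double sums -/
lemma expand2 {R ι : Type} [CommSemiring R] [Fintype ι] [DecidableEq ι] {α : Type} [DecidableEq α] (A : Finset α)
    (g : ι → α → α → R) :
    ∏ i, ∑ a ∈ A, ∑ b ∈ A, g i a b =
      ∑ β ∈ Fintype.piFinset (fun _ : ι ⊕ ι => A), ∏ i, g i (β (Sum.inl i)) (β (Sum.inr i)) := by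
  classical
  have h1 : ∀ i, ∑ a ∈ A, ∑ b ∈ A, g i a b = ∑ z ∈ A ×ˢ A, g i z.1 z.2 := fun i =>
    (sum_product A A (fun z : α × α => g i z.1 z.2)).symm
  rw [prod_congr rfl fun i _ => h1 i, prod_univ_sum (fun _ : ι => A ×ˢ A) (fun i z => g i z.1 z.2)]
  refine sum_nbij' (fun e => Sum.elim (fun i => (e i).1) (fun i => (e i).2))
    (fun β i => (β (Sum.inl i), β (Sum.inr i))) ?_ ?_ ?_ ?_ ?_
  · intro e he
    rw [Fintype.mem_piFinset] at he ⊢
    rintro (i | i)
    · exact (mem_product.1 (he i)).1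
    · exact (mem_product.1 (he i)).2
  · intro β hβ
    rw [Fintype.mem_piFinset] at hβ ⊢
    exact fun i => mem_product.2 ⟨hβ _, hβ _⟩
  · intro e _
    rfl
  · intro β _
    funext j
    rcases j with i | i <;> rfl
  · intro e _
    rfl

variable {p : ℕ} [Fact p.Prime]

/-- a vertex which occurs only once makes the sum vanish -/
lemma vanish {ι : Type} [Fintype ι] [DecidableEq ι] {n : ℕ} (hn : 2 * Fintype.card ι ≤ n)
    (φ : ι → ZMod p → ℂ) (hφ : ∀ i, ∑ y, φ i y = 0) (β : ι ⊕ ι → ZMod p) (j₀ : ι ⊕ ι)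
    (hj : ∀ j, β j = β j₀ → j = j₀) :
    ∑ c : Fin n → ZMod p, ∏ i, φ i (ev c (β (Sum.inl i)) - ev c (β (Sum.inr i))) = 0 := by
  classical
  have hp0 : (p : ℂ) ≠ 0 := by exact_mod_cast (Fact.out : p.Prime).ne_zero
  have hcard : ((univ.image β).erase (β j₀)).card < n := by
    have h1 : (univ.image β).card ≤ (univ : Finset (ι ⊕ ι)).card := card_image_le
    have h2 : (univ : Finset (ι ⊕ ι)).card = 2 * Fintype.card ι := by
      rw [card_univ, Fintype.card_sum]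
      ring
    have h3 : β j₀ ∈ univ.image β := mem_image_of_mem β (mem_univ _)
    rw [card_erase_of_mem h3]
    have h4 := card_pos.2 ⟨_, h3⟩
    omega
  obtain ⟨q, hq, hqv⟩ := exists_vanish (n := n) ((univ.image β).erase (β j₀)) (β j₀)
    (notMem_erase _ _) hcard
  have hz : ∀ j, j ≠ j₀ → ev q (β j) = 0 := fun j hj' =>
    hq _ (mem_erase.2 ⟨fun h => hj' (hj j h), mem_image_of_mem β (mem_univ _)⟩)
  obtain ⟨d, hd⟩ : ∃ d : ι → ZMod p, ∀ i, d i = ev q (β (Sum.inl i)) - ev q (β (Sum.inr i)) :=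
    ⟨_, fun _ => rfl⟩
  obtain ⟨i₀, hi₀, hi₁⟩ : ∃ i₀, d i₀ ≠ 0 ∧ ∀ i, i ≠ i₀ → d i = 0 := by
    rcases j₀ with i₀ | i₀
    · refine ⟨i₀, ?_, fun i hi => ?_⟩
      · rw [hd, hz (Sum.inr i₀) (by simp), sub_zero]
        exact hqv
      · rw [hd, hz (Sum.inr i) (by simp), hz (Sum.inl i) (fun h => hi (Sum.inl.inj h)), sub_zero]
    · refine ⟨i₀, ?_, fun i hi => ?_⟩
      · rw [hd, hz (Sum.inl i₀) (by simp), zero_sub]
        exact neg_ne_zero.2 hqv
      · rw [hd, hz (Sum.inl i) (by simp), hz (Sum.inr i) (fun h => hi (Sum.inr.inj h)), sub_zero]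
  have h1 : ∀ u : ZMod p, ∑ c : Fin n → ZMod p,
      ∏ i, φ i (ev c (β (Sum.inl i)) - ev c (β (Sum.inr i))) =
      ∑ c : Fin n → ZMod p, φ i₀ (ev c (β (Sum.inl i₀)) - ev c (β (Sum.inr i₀)) + u * d i₀) *
        ∏ i ∈ univ.erase i₀, φ i (ev c (β (Sum.inl i)) - ev c (β (Sum.inr i))) := by
    intro u
    rw [← Equiv.sum_comp (Equiv.addRight (u • q))]
    refine sum_congr rfl fun c _ => ?_
    rw [← mul_prod_erase univ _ (mem_univ i₀)]
    simp only [Equiv.coe_addRight, ev_add, ev_smul]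
    congr 1
    · congr 1
      rw [hd]
      ring
    · refine prod_congr rfl fun i hi => ?_
      congr 1
      have h2 := hi₁ i (ne_of_mem_erase hi)
      rw [hd] at h2
      linear_combination u * h2
  have h2 : (p : ℂ) * ∑ c : Fin n → ZMod p,
      ∏ i, φ i (ev c (β (Sum.inl i)) - ev c (β (Sum.inr i))) = 0 := by
    calc (p : ℂ) * ∑ c : Fin n → ZMod p, ∏ i, φ i (ev c (β (Sum.inl i)) - ev c (β (Sum.inr i)))
        = ∑ u : ZMod p, ∑ c : Fin n → ZMod p,
          ∏ i, φ i (ev c (β (Sum.inl i)) - ev c (β (Sum.inr i))) := by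
          rw [sum_const, card_univ, ZMod.card, nsmul_eq_mul]
      _ = ∑ c : Fin n → ZMod p, ∑ u : ZMod p,
          φ i₀ (ev c (β (Sum.inl i₀)) - ev c (β (Sum.inr i₀)) + u * d i₀) *
          ∏ i ∈ univ.erase i₀, φ i (ev c (β (Sum.inl i)) - ev c (β (Sum.inr i))) := by
          rw [sum_congr rfl fun u _ => h1 u, sum_comm]
      _ = 0 := by
          refine sum_eq_zero fun c _ => ?_
          rw [← sum_mul]
          have h3 := Equiv.sum_comp (Equiv.mulRight₀ (d i₀) hi₀)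
            (fun y => φ i₀ (ev c (β (Sum.inl i₀)) - ev c (β (Sum.inr i₀)) + y))
          have h4 := Equiv.sum_comp (Equiv.addLeft (ev c (β (Sum.inl i₀)) - ev c (β (Sum.inr i₀)))) (φ i₀)
          simp only [Equiv.coe_addLeft] at h4
          have h5 : ∑ u : ZMod p, φ i₀ (ev c (β (Sum.inl i₀)) - ev c (β (Sum.inr i₀)) + u * d i₀) = 0 := by
            calc _ = ∑ u : ZMod p, φ i₀ (ev c (β (Sum.inl i₀)) - ev c (β (Sum.inr i₀)) +
                (Equiv.mulRight₀ (d i₀) hi₀) u) := rfl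
              _ = 0 := by rw [h3, h4, hφ]
          rw [h5, zero_mul]
  exact (mul_eq_zero.1 h2).resolve_left hp0

/-- many vertices: one of them occurs only once -/
lemma exists_once {ι α : Type} [Fintype ι] [DecidableEq ι] [DecidableEq α] (β : ι ⊕ ι → α)
    (h : Fintype.card ι < (univ.image β).card) : ∃ j₀, ∀ j, β j = β j₀ → j = j₀ := by
  classical
  by_contra hcon
  push Not at hcon
  have h1 : 2 * (univ.image β).card ≤ (univ : Finset (ι ⊕ ι)).card := by
    rw [card_eq_sum_card_fiberwise (f := β) (t := univ.image β) (fun i _ => mem_image_of_mem β (mem_univ i)),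
      mul_comm, ← smul_eq_mul, ← sum_const]
    refine sum_le_sum fun v hv => ?_
    obtain ⟨j, _, rfl⟩ := mem_image.1 hv
    obtain ⟨j', h2, h3⟩ := hcon j
    refine one_lt_card.2 ⟨j, ?_, j', ?_, fun h4 => h3 h4.symm⟩
    · simp
    · simp [h2]
  rw [card_univ, Fintype.card_sum] at h1
  omega

/-- the number of maps with few values -/
lemma few_values {ι α : Type} [Fintype ι] [DecidableEq ι] [Nonempty ι] [DecidableEq α] (B : Finset α)
    (hB : B.Nonempty) (m : ℕ) :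
    (((Fintype.piFinset (fun _ : ι => B)).filter fun β => (univ.image β).card ≤ m).card : ℝ) ≤
      (Fintype.card ι : ℝ) ^ Fintype.card ι * (B.card : ℝ) ^ m := by
  classical
  have hB0 : (0 : ℝ) < B.card := by exact_mod_cast hB.card_pos
  have hB1 : (1 : ℝ) ≤ B.card := by exact_mod_cast hB.card_pos
  have h1 := kernels (ι := ι) B ((B.card : ℝ)⁻¹) (by positivity)
  have h2 : ∑ σ : ι → ι, ((B.card : ℝ) * (B.card : ℝ)⁻¹) ^ (univ.image σ).card =
      (Fintype.card ι : ℝ) ^ Fintype.card ι := by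
    rw [mul_inv_cancel₀ hB0.ne']
    simp
  rw [h2] at h1
  have h3 : (((Fintype.piFinset (fun _ : ι => B)).filter fun β => (univ.image β).card ≤ m).card : ℝ) *
      ((B.card : ℝ)⁻¹) ^ m ≤ ∑ β ∈ Fintype.piFinset (fun _ : ι => B), ((B.card : ℝ)⁻¹) ^ (univ.image β).card := by
    calc _ = ∑ β ∈ (Fintype.piFinset (fun _ : ι => B)).filter (fun β => (univ.image β).card ≤ m),
          ((B.card : ℝ)⁻¹) ^ m := by rw [sum_const, nsmul_eq_mul]
      _ ≤ ∑ β ∈ (Fintype.piFinset (fun _ : ι => B)).filter (fun β => (univ.image β).card ≤ m),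
          ((B.card : ℝ)⁻¹) ^ (univ.image β).card := by
          refine sum_le_sum fun β hβ => ?_
          exact pow_le_pow_of_le_one (by positivity) (inv_le_one_of_one_le₀ hB1) (mem_filter.1 hβ).2
      _ ≤ _ := sum_le_sum_of_subset_of_nonneg (filter_subset _ _) fun β _ _ => by positivity
  have h4 := h3.trans h1
  rw [inv_pow, ← div_eq_mul_inv, div_le_iff₀ (by positivity)] at h4
  exact h4

/-- the factors for the difference sums -/
noncomputable def fd (χ : DirichletCharacter ℂ p) (r : ℕ) (i : Fin r ⊕ Fin r) (y : ZMod p) : ℂ :=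
  Sum.elim (fun _ => χ y) (fun _ => (starRingEnd ℂ) (χ y)) i

/-- **Moments of the difference sums.** -/
theorem moment_diff (χ : DirichletCharacter ℂ p) (hχ : χ ≠ 1) (A : Finset (ZMod p)) (hA : A.Nonempty)
    (r n : ℕ) (hr0 : 1 ≤ r) (hr : 4 * r ≤ n) :
    ∑ c : Fin n → ZMod p, ‖∑ a ∈ A, ∑ b ∈ A, χ (ev c a - ev c b)‖ ^ (2 * r) ≤
      (4 * r : ℝ) ^ (4 * r) * (p : ℝ) ^ n * (A.card : ℝ) ^ (2 * r) := by
  classical
  have hp0 : (0 : ℝ) < p := by exact_mod_cast (Fact.out : p.Prime).pos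
  have hne : Nonempty ((Fin r ⊕ Fin r) ⊕ (Fin r ⊕ Fin r)) := ⟨Sum.inl (Sum.inl ⟨0, hr0⟩)⟩
  have hcι : Fintype.card (Fin r ⊕ Fin r) = 2 * r := by
    rw [Fintype.card_sum, Fintype.card_fin]
    ring
  have hsum : ∀ i, ∑ y, fd χ r i y = 0 := by
    intro i
    unfold fd
    rcases i with i | i
    · exact sum_chi χ hχ
    · simp only [Sum.elim_inr]
      rw [← map_sum, sum_chi χ hχ, map_zero]
  have hnorm : ∀ i y, ‖fd χ r i y‖ ≤ 1 := by
    intro i y
    unfold fd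
    rcases i with i | i
    · exact χ.norm_le_one _
    · simpa using χ.norm_le_one y
  have hexp : ∀ c : Fin n → ZMod p, ((‖∑ a ∈ A, ∑ b ∈ A, χ (ev c a - ev c b)‖ ^ (2 * r) : ℝ) : ℂ) =
      ∑ β ∈ Fintype.piFinset (fun _ : (Fin r ⊕ Fin r) ⊕ (Fin r ⊕ Fin r) => A),
        ∏ i, fd χ r i (ev c (β (Sum.inl i)) - ev c (β (Sum.inr i))) := by
    intro c
    rw [← expand2 A (fun i a b => fd χ r i (ev c a - ev c b)), Fintype.prod_sum_type]
    unfold fd
    simp only [Sum.elim_inl, Sum.elim_inr, prod_const, card_univ, Fintype.card_fin]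
    have h1 : ∑ a ∈ A, ∑ b ∈ A, (starRingEnd ℂ) (χ (ev c a - ev c b)) =
        (starRingEnd ℂ) (∑ a ∈ A, ∑ b ∈ A, χ (ev c a - ev c b)) := by
      rw [map_sum]
      refine sum_congr rfl fun a _ => ?_
      rw [map_sum]
    rw [h1, ← mul_pow, Complex.mul_conj, Complex.normSq_eq_norm_sq, pow_mul]
    push_cast
    ring
  have h1 : ((∑ c : Fin n → ZMod p, ‖∑ a ∈ A, ∑ b ∈ A, χ (ev c a - ev c b)‖ ^ (2 * r) : ℝ) : ℂ) =
      ∑ β ∈ Fintype.piFinset (fun _ : (Fin r ⊕ Fin r) ⊕ (Fin r ⊕ Fin r) => A), ∑ c : Fin n → ZMod p,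
        ∏ i, fd χ r i (ev c (β (Sum.inl i)) - ev c (β (Sum.inr i))) := by
    rw [Complex.ofReal_sum, sum_comm]
    exact sum_congr rfl fun c _ => hexp c
  have h2 : ∑ c : Fin n → ZMod p, ‖∑ a ∈ A, ∑ b ∈ A, χ (ev c a - ev c b)‖ ^ (2 * r) ≤
      ∑ β ∈ Fintype.piFinset (fun _ : (Fin r ⊕ Fin r) ⊕ (Fin r ⊕ Fin r) => A),
        ‖∑ c : Fin n → ZMod p, ∏ i, fd χ r i (ev c (β (Sum.inl i)) - ev c (β (Sum.inr i)))‖ := by
    have h3 : 0 ≤ ∑ c : Fin n → ZMod p, ‖∑ a ∈ A, ∑ b ∈ A, χ (ev c a - ev c b)‖ ^ (2 * r) :=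
      sum_nonneg fun c _ => by positivity
    calc ∑ c : Fin n → ZMod p, ‖∑ a ∈ A, ∑ b ∈ A, χ (ev c a - ev c b)‖ ^ (2 * r)
        = ‖((∑ c : Fin n → ZMod p, ‖∑ a ∈ A, ∑ b ∈ A, χ (ev c a - ev c b)‖ ^ (2 * r) : ℝ) : ℂ)‖ := by
          rw [Complex.norm_real, Real.norm_of_nonneg h3]
      _ ≤ _ := by
          rw [h1]
          exact norm_sum_le _ _
  refine h2.trans ?_
  have h4 : ∀ β : (Fin r ⊕ Fin r) ⊕ (Fin r ⊕ Fin r) → ZMod p,
      ‖∑ c : Fin n → ZMod p, ∏ i, fd χ r i (ev c (β (Sum.inl i)) - ev c (β (Sum.inr i)))‖ ≤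
      if (univ.image β).card ≤ 2 * r then (p : ℝ) ^ n else 0 := by
    intro β
    split_ifs with hβ
    · refine (norm_sum_le _ _).trans ?_
      refine (sum_le_card_nsmul _ _ 1 fun c _ => ?_).trans (le_of_eq ?_)
      · rw [norm_prod]
        exact prod_le_one (fun i _ => norm_nonneg _) fun i _ => hnorm _ _
      · rw [card_univ, Fintype.card_fun, ZMod.card, Fintype.card_fin, nsmul_eq_mul]
        push_cast
        ring
    · obtain ⟨j₀, hj⟩ := exists_once β (by rw [hcι]; omega)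
      rw [vanish (by rw [hcι]; omega) (fd χ r) hsum β j₀ hj, norm_zero]
  refine (sum_le_sum fun β _ => h4 β).trans ?_
  rw [← sum_filter, sum_const, nsmul_eq_mul]
  have h5 := few_values (ι := (Fin r ⊕ Fin r) ⊕ (Fin r ⊕ Fin r)) A hA (2 * r)
  have h6 : Fintype.card ((Fin r ⊕ Fin r) ⊕ (Fin r ⊕ Fin r)) = 4 * r := by
    rw [Fintype.card_sum, hcι]
    ring
  rw [h6] at h5
  calc _ ≤ (((4 * r : ℕ) : ℝ) ^ (4 * r) * (A.card : ℝ) ^ (2 * r)) * (p : ℝ) ^ n :=
        mul_le_mul_of_nonneg_right h5 (by positivity)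
    _ = _ := by
        push_cast
        ring

end Pool.Agent.V11298.PI
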