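import Pool.Agent.V11298.PI.Col

/-! # Difference sums over polynomial images of the sets of a family -/

set_option autoImplicit false

namespace Pool.Agent.V11298.PI

open Finset

section

variable {p : ℕ} [Fact p.Prime]

lemma one_le_p : (1 : ℝ) ≤ p := by exact_mod_cast (Fact.out : p.Prime).one_le

/-- few polynomials have many collisions -/
lemma bad_col (A : Finset (ZMod p)) (m n : ℕ) (hm : 1 ≤ m) (hmn : 2 * m ≤ n) (δ κ : ℝ)
    (hκ1 : κ ≤ 3 * δ / 4) (hκ2 : κ ≤ 1 / 16) (hA1 : (p : ℝ) ^ δ < A.card)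
    (hA2 : (A.card : ℝ) < (p : ℝ) ^ ((3 : ℝ) / 4)) :
    ({c : Fin n → ZMod p | (A.card : ℝ) ^ ((3 : ℝ) / 4) < col A c}.ncard : ℝ) ≤
      (2 * m : ℝ) ^ (2 * m) * (p : ℝ) ^ n * (p : ℝ) ^ (-(κ * m)) := by
  classical
  have hp1 : (1 : ℝ) ≤ p := one_le_p
  have hp0 : (0 : ℝ) < p := by linarith
  have hA0 : (0 : ℝ) < A.card := lt_trans (by positivity) hA1
  have hmono : ∀ x y : ℝ, x ≤ y → (p : ℝ) ^ x ≤ (p : ℝ) ^ y := fun x y h =>
    Real.rpow_le_rpow_of_exponent_le hp1 h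
  have hmom := moment_col A m n hm hmn
  set T := univ.filter fun c : Fin n → ZMod p => (A.card : ℝ) ^ ((3 : ℝ) / 4) < col A c with hT
  have hTc : {c : Fin n → ZMod p | (A.card : ℝ) ^ ((3 : ℝ) / 4) < col A c}.ncard = T.card := by
    rw [← Set.ncard_coe_finset T]
    congr 1
    ext c
    simp [hT]
  rw [hTc]
  obtain ⟨x, hx⟩ : ∃ x : ℝ, x = (A.card : ℝ) ^ ((3 : ℝ) / 4) := ⟨_, rfl⟩
  have hx0 : 0 < x := by rw [hx]; positivity
  obtain ⟨M, hM⟩ : ∃ M : ℝ, M = max 1 ((A.card : ℝ) / Real.sqrt p) := ⟨_, rfl⟩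
  rw [← hM] at hmom
  have h1 : (T.card : ℝ) * x ^ m ≤ (2 * m : ℝ) ^ (2 * m) * (p : ℝ) ^ n * M ^ (2 * m) := by
    refine le_trans ?_ hmom
    calc (T.card : ℝ) * x ^ m = ∑ c ∈ T, x ^ m := by rw [sum_const, nsmul_eq_mul]
      _ ≤ ∑ c ∈ T, col A c ^ m := by
          refine sum_le_sum fun c hc => ?_
          have h2 := (mem_filter.1 hc).2
          rw [← hx] at h2
          exact pow_le_pow_left₀ hx0.le h2.le _
      _ ≤ _ := sum_le_sum_of_subset_of_nonneg (subset_univ _) fun c _ _ => pow_nonneg (col_nonneg A c) _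
  have h2 : M ^ 2 ≤ (p : ℝ) ^ (-κ) * x := by
    rw [hM]
    have hx1 : 1 ≤ (p : ℝ) ^ (-κ) * x := by
      have h3 : (p : ℝ) ^ κ ≤ x := by
        calc (p : ℝ) ^ κ ≤ (p : ℝ) ^ (δ * (3 / 4)) := hmono _ _ (by linarith)
          _ = ((p : ℝ) ^ δ) ^ ((3 : ℝ) / 4) := Real.rpow_mul hp0.le _ _
          _ ≤ x := by
              rw [hx]
              exact Real.rpow_le_rpow (by positivity) hA1.le (by norm_num)
      calc (1 : ℝ) = (p : ℝ) ^ (-κ) * (p : ℝ) ^ κ := by rw [← Real.rpow_add hp0]; simp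
        _ ≤ _ := by gcongr
    rcases le_total (1 : ℝ) ((A.card : ℝ) / Real.sqrt p) with h | h
    · rw [max_eq_right h, div_pow, Real.sq_sqrt hp0.le, div_le_iff₀ hp0]
      have h4 : (A.card : ℝ) ^ 2 = (A.card : ℝ) ^ ((5 : ℝ) / 4) * x := by
        rw [hx, ← Real.rpow_add hA0]
        norm_num
      have h5 : (A.card : ℝ) ^ ((5 : ℝ) / 4) ≤ (p : ℝ) ^ (-κ) * p := by
        calc (A.card : ℝ) ^ ((5 : ℝ) / 4) ≤ ((p : ℝ) ^ ((3 : ℝ) / 4)) ^ ((5 : ℝ) / 4) :=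
              Real.rpow_le_rpow hA0.le hA2.le (by norm_num)
          _ = (p : ℝ) ^ ((15 : ℝ) / 16) := by
              rw [← Real.rpow_mul hp0.le]
              norm_num
          _ ≤ (p : ℝ) ^ (-κ + 1) := hmono _ _ (by linarith)
          _ = (p : ℝ) ^ (-κ) * p := by rw [Real.rpow_add hp0, Real.rpow_one]
      rw [h4]
      calc (A.card : ℝ) ^ ((5 : ℝ) / 4) * x ≤ ((p : ℝ) ^ (-κ) * p) * x := by gcongr
        _ = _ := by ring
    · rw [max_eq_left h]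
      simpa using hx1
  have h3 : M ^ (2 * m) ≤ (p : ℝ) ^ (-(κ * m)) * x ^ m := by
    have hM0 : 0 ≤ M ^ 2 := by positivity
    calc M ^ (2 * m) = (M ^ 2) ^ m := by rw [pow_mul]
      _ ≤ ((p : ℝ) ^ (-κ) * x) ^ m := pow_le_pow_left₀ hM0 h2 _
      _ = (p : ℝ) ^ (-(κ * m)) * x ^ m := by
          rw [mul_pow, ← Real.rpow_natCast ((p : ℝ) ^ (-κ)), ← Real.rpow_mul hp0.le]
          congr 2
          ring
  have h4 : (0 : ℝ) < x ^ m := by positivity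
  refine le_of_mul_le_mul_right ?_ h4
  calc (T.card : ℝ) * x ^ m ≤ (2 * m : ℝ) ^ (2 * m) * (p : ℝ) ^ n * M ^ (2 * m) := h1
    _ ≤ (2 * m : ℝ) ^ (2 * m) * (p : ℝ) ^ n * ((p : ℝ) ^ (-(κ * m)) * x ^ m) := by gcongr
    _ = _ := by ring

/-- few polynomials have large difference sums -/
lemma bad_diff (χ : DirichletCharacter ℂ p) (hχ : χ ≠ 1) (A : Finset (ZMod p)) (r n : ℕ) (hr0 : 1 ≤ r)
    (hr : 4 * r ≤ n) (δ : ℝ) (hA1 : (p : ℝ) ^ δ < A.card) :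
    ({c : Fin n → ZMod p | (A.card : ℝ) ^ ((7 : ℝ) / 4) < ‖∑ a ∈ A, ∑ b ∈ A, χ (ev c a - ev c b)‖}.ncard : ℝ) ≤
      (4 * r : ℝ) ^ (4 * r) * (p : ℝ) ^ n * (p : ℝ) ^ (-(3 * δ * r / 2)) := by
  classical
  have hp1 : (1 : ℝ) ≤ p := one_le_p
  have hp0 : (0 : ℝ) < p := by linarith
  have hA0 : (0 : ℝ) < A.card := lt_trans (by positivity) hA1
  have hAne : A.Nonempty := by
    rw [← card_pos]
    exact_mod_cast hA0
  have hmom := moment_diff χ hχ A hAne r n hr0 hr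
  set T := univ.filter fun c : Fin n → ZMod p =>
    (A.card : ℝ) ^ ((7 : ℝ) / 4) < ‖∑ a ∈ A, ∑ b ∈ A, χ (ev c a - ev c b)‖ with hT
  have hTc : {c : Fin n → ZMod p |
      (A.card : ℝ) ^ ((7 : ℝ) / 4) < ‖∑ a ∈ A, ∑ b ∈ A, χ (ev c a - ev c b)‖}.ncard = T.card := by
    rw [← Set.ncard_coe_finset T]
    congr 1
    ext c
    simp [hT]
  rw [hTc]
  obtain ⟨y, hy⟩ : ∃ y : ℝ, y = (A.card : ℝ) ^ ((7 : ℝ) / 4) := ⟨_, rfl⟩
  obtain ⟨x, hx⟩ : ∃ x : ℝ, x = (A.card : ℝ) ^ ((3 : ℝ) / 4) := ⟨_, rfl⟩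
  have hy0 : 0 < y := by rw [hy]; positivity
  have hx0 : 0 < x := by rw [hx]; positivity
  have hyx : y = A.card * x := by
    rw [hy, hx]
    conv_rhs => rw [← Real.rpow_one (A.card : ℝ)]
    rw [Real.rpow_one, ← Real.rpow_one_add' hA0.le (by norm_num)]
    norm_num
  have h1 : (T.card : ℝ) * y ^ (2 * r) ≤ (4 * r : ℝ) ^ (4 * r) * (p : ℝ) ^ n * (A.card : ℝ) ^ (2 * r) := by
    refine le_trans ?_ hmom
    calc (T.card : ℝ) * y ^ (2 * r) = ∑ c ∈ T, y ^ (2 * r) := by rw [sum_const, nsmul_eq_mul]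
      _ ≤ ∑ c ∈ T, ‖∑ a ∈ A, ∑ b ∈ A, χ (ev c a - ev c b)‖ ^ (2 * r) := by
          refine sum_le_sum fun c hc => ?_
          have h2 := (mem_filter.1 hc).2
          rw [← hy] at h2
          exact pow_le_pow_left₀ hy0.le h2.le _
      _ ≤ _ := sum_le_sum_of_subset_of_nonneg (subset_univ _) fun c _ _ => by positivity
  have h2 : (T.card : ℝ) * x ^ (2 * r) ≤ (4 * r : ℝ) ^ (4 * r) * (p : ℝ) ^ n := by
    have h3 : (0 : ℝ) < (A.card : ℝ) ^ (2 * r) := by positivity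
    refine le_of_mul_le_mul_right ?_ h3
    calc (T.card : ℝ) * x ^ (2 * r) * (A.card : ℝ) ^ (2 * r) = T.card * y ^ (2 * r) := by
          rw [hyx, mul_pow]
          ring
      _ ≤ _ := h1
  have h3 : (p : ℝ) ^ (3 * δ * r / 2) ≤ x ^ (2 * r) := by
    calc (p : ℝ) ^ (3 * δ * r / 2) = (((p : ℝ) ^ δ) ^ ((3 : ℝ) / 4)) ^ (2 * r) := by
          rw [← Real.rpow_natCast, ← Real.rpow_mul hp0.le, ← Real.rpow_mul hp0.le]
          congr 1
          push_cast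
          ring
      _ ≤ x ^ (2 * r) := by
          rw [hx]
          exact pow_le_pow_left₀ (by positivity) (Real.rpow_le_rpow (by positivity) hA1.le (by norm_num)) _
  rw [Real.rpow_neg hp0.le, ← div_eq_mul_inv, le_div_iff₀ (by positivity)]
  refine le_trans ?_ h2
  gcongr

/-- for a large set every polynomial is good -/
lemma good_large {n : ℕ} (c : Fin n → ZMod p) (A : Finset (ZMod p)) (hn : (n : ℝ) < (p : ℝ) ^ ((5 : ℝ) / 32))
    (hA : (p : ℝ) ^ ((3 : ℝ) / 4) ≤ A.card) (χ : DirichletCharacter ℂ p) (hχ : χ ≠ 1) :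
    ‖∑ x ∈ A.image (ev c), ∑ y ∈ A.image (ev c), χ (x - y)‖ < ((A.image (ev c)).card : ℝ) ^ ((15 : ℝ) / 8) := by
  classical
  have hp1 : (1 : ℝ) ≤ p := one_le_p
  have hp0 : (0 : ℝ) < p := by linarith
  have hA0 : (0 : ℝ) < A.card := lt_of_lt_of_le (by positivity) hA
  have hAne : A.Nonempty := by
    rw [← card_pos]
    exact_mod_cast hA0
  rcases image_large c A with h | h
  · have h1 : (A.image (ev c)).card = 1 := le_antisymm h (hAne.image _).card_pos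
    obtain ⟨x, hx⟩ := card_eq_one.1 h1
    rw [hx]
    simp only [sum_singleton, sub_self, card_singleton, Nat.cast_one, Real.one_rpow]
    rw [MulChar.map_zero χ, norm_zero]
    exact one_pos
  · obtain ⟨z, hz⟩ : ∃ z : ℝ, z = ((A.image (ev c)).card : ℝ) := ⟨_, rfl⟩
    rw [← hz] at h ⊢
    have hn0 : (0 : ℝ) < n := by
      by_contra hcon
      push Not at hcon
      have h1 : (n : ℝ) = 0 := le_antisymm hcon (Nat.cast_nonneg _)
      rw [h1, zero_mul] at h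
      linarith
    have hz1 : (p : ℝ) ^ ((19 : ℝ) / 32) < z := by
      have h1 : (p : ℝ) ^ ((3 : ℝ) / 4) = (p : ℝ) ^ ((5 : ℝ) / 32) * (p : ℝ) ^ ((19 : ℝ) / 32) := by
        rw [← Real.rpow_add hp0]
        norm_num
      have h2 : (n : ℝ) * (p : ℝ) ^ ((19 : ℝ) / 32) < n * z := by
        calc (n : ℝ) * (p : ℝ) ^ ((19 : ℝ) / 32) < (p : ℝ) ^ ((5 : ℝ) / 32) * (p : ℝ) ^ ((19 : ℝ) / 32) := by
              gcongr
          _ = (p : ℝ) ^ ((3 : ℝ) / 4) := h1.symm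
          _ ≤ n * z := hA.trans h
      exact lt_of_mul_lt_mul_left h2 hn0.le
    have hz0 : 0 < z := lt_trans (by positivity) hz1
    have h3 := erdos_shapiro χ hχ (A.image (ev c))
    rw [← hz] at h3
    refine lt_of_le_of_lt h3 ?_
    have h4 : z ^ ((15 : ℝ) / 8) = z ^ ((7 : ℝ) / 8) * z := by
      conv_rhs => rw [← Real.rpow_one z]
      rw [Real.rpow_one, ← Real.rpow_add_one hz0.ne']
      norm_num
    rw [h4]
    refine mul_lt_mul_of_pos_right ?_ hz0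
    calc Real.sqrt p = (p : ℝ) ^ ((1 : ℝ) / 2) := Real.sqrt_eq_rpow _
      _ ≤ (p : ℝ) ^ ((19 : ℝ) / 32 * (7 / 8)) := Real.rpow_le_rpow_of_exponent_le hp1 (by norm_num)
      _ = ((p : ℝ) ^ ((19 : ℝ) / 32)) ^ ((7 : ℝ) / 8) := Real.rpow_mul hp0.le _ _
      _ < z ^ ((7 : ℝ) / 8) := Real.rpow_lt_rpow (by positivity) hz1 (by norm_num)

/-- polynomials with few collisions and small difference sums are good -/
lemma good_small {n : ℕ} (c : Fin n → ZMod p) (A : Finset (ZMod p)) (hA : (12 : ℝ) < (A.card : ℝ) ^ ((1 : ℝ) / 8))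
    (h1 : col A c ≤ (A.card : ℝ) ^ ((3 : ℝ) / 4)) (χ : DirichletCharacter ℂ p)
    (h2 : ‖∑ a ∈ A, ∑ b ∈ A, χ (ev c a - ev c b)‖ ≤ (A.card : ℝ) ^ ((7 : ℝ) / 4)) :
    ‖∑ x ∈ A.image (ev c), ∑ y ∈ A.image (ev c), χ (x - y)‖ < ((A.image (ev c)).card : ℝ) ^ ((15 : ℝ) / 8) := by
  classical
  obtain ⟨hc1, hc2⟩ := image_bound c A
  have hc2 := hc2 χ
  obtain ⟨y, hy⟩ : ∃ y : ℝ, y = (A.card : ℝ) ^ ((1 : ℝ) / 8) := ⟨_, rfl⟩
  have hA0 : (0 : ℝ) ≤ A.card := Nat.cast_nonneg _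
  rw [← hy] at hA
  have hy0 : 0 < y := by linarith
  have e8 : (A.card : ℝ) = y ^ 8 := by
    rw [hy, ← Real.rpow_natCast, ← Real.rpow_mul hA0]
    norm_num
  have e6 : (A.card : ℝ) ^ ((3 : ℝ) / 4) = y ^ 6 := by
    rw [hy, ← Real.rpow_natCast, ← Real.rpow_mul hA0]
    norm_num
  have e14 : (A.card : ℝ) ^ ((7 : ℝ) / 4) = y ^ 14 := by
    rw [hy, ← Real.rpow_natCast, ← Real.rpow_mul hA0]
    norm_num
  rw [e6] at h1
  rw [e14] at h2
  rw [e8] at hc1 hc2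
  obtain ⟨z, hz⟩ : ∃ z : ℝ, z = ((A.image (ev c)).card : ℝ) := ⟨_, rfl⟩
  rw [← hz] at hc1 ⊢
  have h3 : y ^ 8 / 2 ≤ z := by
    have h4 : y ^ 6 ≤ y ^ 8 / 2 := by
      have h5 : (2 : ℝ) ≤ y ^ 2 := by nlinarith
      have h6 : y ^ 8 = y ^ 6 * y ^ 2 := by ring
      rw [h6]
      have h7 : 0 < y ^ 6 := by positivity
      nlinarith
    linarith
  have h4 : y ^ 15 / 4 ≤ z ^ ((15 : ℝ) / 8) := by
    calc y ^ 15 / 4 ≤ (y ^ 8 / 2) ^ ((15 : ℝ) / 8) := by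
          rw [Real.div_rpow (by positivity) (by norm_num)]
          have h5 : (y ^ 8) ^ ((15 : ℝ) / 8) = y ^ 15 := by
            rw [← Real.rpow_natCast, ← Real.rpow_mul hy0.le, ← Real.rpow_natCast]
            norm_num
          have h6 : (2 : ℝ) ^ ((15 : ℝ) / 8) ≤ 4 := by
            calc (2 : ℝ) ^ ((15 : ℝ) / 8) ≤ (2 : ℝ) ^ (2 : ℝ) :=
                  Real.rpow_le_rpow_of_exponent_le (by norm_num) (by norm_num)
              _ = 4 := by norm_num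
          rw [h5]
          exact div_le_div_of_nonneg_left (by positivity) (by positivity) h6
      _ ≤ _ := Real.rpow_le_rpow (by positivity) h3 (by norm_num)
  refine lt_of_lt_of_le ?_ h4
  have h5 : 2 * y ^ 8 * col A c ≤ 2 * y ^ 14 := by
    calc 2 * y ^ 8 * col A c ≤ 2 * y ^ 8 * y ^ 6 := by gcongr
      _ = 2 * y ^ 14 := by ring
  have h6 : 3 * y ^ 14 < y ^ 15 / 4 := by
    have h7 : y ^ 15 = y ^ 14 * y := by ring
    rw [h7]
    have h8 : 0 < y ^ 14 := by positivity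
    nlinarith
  linarith

lemma card_char : Nat.card (DirichletCharacter ℂ p) ≤ p := by
  have hne : NeZero p := ⟨(Fact.out : p.Prime).ne_zero⟩
  rw [DirichletCharacter.card_eq_totient_of_hasEnoughRootsOfUnity]
  exact Nat.totient_le p

end

/-- **Families.** -/
theorem family (δ : ℝ) (hδ : 0 < δ) (K : ℕ) : ∃ n₀ : ℕ, ∀ n : ℕ, n₀ ≤ n → ∃ p₀ : ℕ,
    ∀ (p : ℕ) [Fact p.Prime], p₀ ≤ p → ∀ F : Finset (Finset (ZMod p)), (F.card : ℝ) ≤ (p : ℝ) ^ K →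
      (∀ A ∈ F, (p : ℝ) ^ δ < A.card) →
      ({c : Fin n → ZMod p | ∃ A ∈ F, ∃ χ : DirichletCharacter ℂ p, χ ≠ 1 ∧
        ((A.image (ev c)).card : ℝ) ^ ((15 : ℝ) / 8) ≤
          ‖∑ x ∈ A.image (ev c), ∑ y ∈ A.image (ev c), χ (x - y)‖}.ncard : ℝ) ≤ (p : ℝ) ^ ((n : ℝ) - K) := by
  classical
  obtain ⟨κ, hκ⟩ : ∃ κ : ℝ, κ = min (3 * δ / 4) (1 / 16) := ⟨_, rfl⟩
  have hκ0 : 0 < κ := by rw [hκ]; positivity
  have hκ1 : κ ≤ 3 * δ / 4 := by rw [hκ]; exact min_le_left _ _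
  have hκ2 : κ ≤ 1 / 16 := by rw [hκ]; exact min_le_right _ _
  obtain ⟨m, hm⟩ : ∃ m : ℕ, m = ⌈(2 * K + 1 : ℝ) / κ⌉₊ + 1 := ⟨_, rfl⟩
  obtain ⟨r, hr⟩ : ∃ r : ℕ, r = ⌈(2 * K + 2 : ℝ) / δ⌉₊ + 1 := ⟨_, rfl⟩
  have hm1 : 1 ≤ m := by omega
  have hr1 : 1 ≤ r := by omega
  have hmκ : (2 * K + 1 : ℝ) ≤ κ * m := by
    have h1 : (2 * K + 1 : ℝ) / κ ≤ m := by
      rw [hm]
      push_cast
      have := Nat.le_ceil ((2 * K + 1 : ℝ) / κ)
      linarith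
    rw [div_le_iff₀ hκ0] at h1
    linarith
  have hrδ : (2 * K + 2 : ℝ) ≤ 3 * δ * r / 2 := by
    have h1 : (2 * K + 2 : ℝ) / δ ≤ r := by
      rw [hr]
      push_cast
      have := Nat.le_ceil ((2 * K + 2 : ℝ) / δ)
      linarith
    rw [div_le_iff₀ hδ] at h1
    have h2 : (0 : ℝ) ≤ r * δ := by positivity
    nlinarith
  refine ⟨2 * m + 4 * r, fun n hn => ?_⟩
  obtain ⟨p₁, hp₁⟩ : ∃ p₁ : ℕ, ∀ p : ℕ, p₁ ≤ p → (12 : ℝ) < ((p : ℝ) ^ δ) ^ ((1 : ℝ) / 8) ∧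
      (n : ℝ) < (p : ℝ) ^ ((5 : ℝ) / 32) ∧ 2 * (2 * m : ℝ) ^ (2 * m) ≤ p ∧ 2 * (4 * r : ℝ) ^ (4 * r) ≤ p := by
    have h1 : Filter.Tendsto (fun p : ℕ => ((p : ℝ) ^ δ) ^ ((1 : ℝ) / 8)) Filter.atTop Filter.atTop :=
      (tendsto_rpow_atTop (by norm_num)).comp ((tendsto_rpow_atTop hδ).comp tendsto_natCast_atTop_atTop)
    have h2 : Filter.Tendsto (fun p : ℕ => (p : ℝ) ^ ((5 : ℝ) / 32)) Filter.atTop Filter.atTop :=
      (tendsto_rpow_atTop (by norm_num)).comp tendsto_natCast_atTop_atTop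
    have h3 : Filter.Tendsto (fun p : ℕ => (p : ℝ)) Filter.atTop Filter.atTop := tendsto_natCast_atTop_atTop
    have h4 := (h1.eventually_gt_atTop (12 : ℝ)).and ((h2.eventually_gt_atTop (n : ℝ)).and
      ((h3.eventually_ge_atTop (2 * (2 * m : ℝ) ^ (2 * m))).and
        (h3.eventually_ge_atTop (2 * (4 * r : ℝ) ^ (4 * r)))))
    obtain ⟨p₁, h5⟩ := Filter.eventually_atTop.1 h4
    exact ⟨p₁, h5⟩
  refine ⟨p₁, fun p _ hp F hF hA => ?_⟩
  obtain ⟨hq1, hq2, hq3, hq4⟩ := hp₁ p hp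
  have hp1 : (1 : ℝ) ≤ p := one_le_p
  have hp0 : (0 : ℝ) < p := by linarith
  have hmono : ∀ x y : ℝ, x ≤ y → (p : ℝ) ^ x ≤ (p : ℝ) ^ y := fun x y h =>
    Real.rpow_le_rpow_of_exponent_le hp1 h
  have : NeZero p := ⟨(Fact.out : p.Prime).ne_zero⟩
  have : Fintype (DirichletCharacter ℂ p) := Fintype.ofFinite _
  set G := F.filter fun A => (A.card : ℝ) < (p : ℝ) ^ ((3 : ℝ) / 4) with hG
  set X := (univ : Finset (DirichletCharacter ℂ p)).erase 1 with hX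
  set B1 : Finset (ZMod p) → Finset (Fin n → ZMod p) := fun A =>
    univ.filter fun c => (A.card : ℝ) ^ ((3 : ℝ) / 4) < col A c with hB1
  set B2 : Finset (ZMod p) → DirichletCharacter ℂ p → Finset (Fin n → ZMod p) := fun A χ =>
    univ.filter fun c => (A.card : ℝ) ^ ((7 : ℝ) / 4) < ‖∑ a ∈ A, ∑ b ∈ A, χ (ev c a - ev c b)‖ with hB2
  have hsub : {c : Fin n → ZMod p | ∃ A ∈ F, ∃ χ : DirichletCharacter ℂ p, χ ≠ 1 ∧
        ((A.image (ev c)).card : ℝ) ^ ((15 : ℝ) / 8) ≤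
          ‖∑ x ∈ A.image (ev c), ∑ y ∈ A.image (ev c), χ (x - y)‖} ⊆
      ((G.biUnion fun A => B1 A ∪ X.biUnion fun χ => B2 A χ : Finset (Fin n → ZMod p)) :
        Set (Fin n → ZMod p)) := by
    rintro c ⟨A, hAF, χ, hχ, hbad⟩
    by_contra hcon
    rw [mem_coe, mem_biUnion] at hcon
    push Not at hcon
    refine absurd hbad (not_le.2 ?_)
    by_cases hlarge : (A.card : ℝ) < (p : ℝ) ^ ((3 : ℝ) / 4)
    · have h1 := hcon A (mem_filter.2 ⟨hAF, hlarge⟩)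
      rw [mem_union, not_or, mem_biUnion] at h1
      obtain ⟨h2, h3⟩ := h1
      push Not at h3
      have h4 := h3 χ (mem_erase.2 ⟨hχ, mem_univ _⟩)
      refine good_small c A ?_ ?_ χ ?_
      · exact hq1.trans (Real.rpow_lt_rpow (by positivity) (hA A hAF) (by norm_num))
      · by_contra h5
        push Not at h5
        exact h2 (mem_filter.2 ⟨mem_univ _, h5⟩)
      · by_contra h5
        push Not at h5
        exact h4 (mem_filter.2 ⟨mem_univ _, h5⟩)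
    · push Not at hlarge
      exact good_large c A hq2 hlarge χ hχ
  have hc1 : ∀ A ∈ G, ((B1 A).card : ℝ) ≤ (2 * m : ℝ) ^ (2 * m) * (p : ℝ) ^ n * (p : ℝ) ^ (-(κ * m)) := by
    intro A hAG
    have h1 := bad_col A m n hm1 (by omega) δ κ hκ1 hκ2 (hA A (mem_filter.1 hAG).1) (mem_filter.1 hAG).2
    refine le_trans (le_of_eq ?_) h1
    rw [← Set.ncard_coe_finset (B1 A)]
    congr 2
    ext c
    simp [hB1]
  have hc2 : ∀ A ∈ G, ∀ χ ∈ X, ((B2 A χ).card : ℝ) ≤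
      (4 * r : ℝ) ^ (4 * r) * (p : ℝ) ^ n * (p : ℝ) ^ (-(3 * δ * r / 2)) := by
    intro A hAG χ hχX
    have h1 := bad_diff χ (ne_of_mem_erase hχX) A r n hr1 (by omega) δ (hA A (mem_filter.1 hAG).1)
    refine le_trans (le_of_eq ?_) h1
    rw [← Set.ncard_coe_finset (B2 A χ)]
    congr 2
    ext c
    simp [hB2]
  have hXc : (X.card : ℝ) ≤ p := by
    have h1 : X.card ≤ Nat.card (DirichletCharacter ℂ p) := by
      rw [Nat.card_eq_fintype_card, ← card_univ]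
      exact card_le_card (subset_univ _)
    exact_mod_cast h1.trans card_char
  have hGc : (G.card : ℝ) ≤ (p : ℝ) ^ K := le_trans (Nat.cast_le.2 (card_le_card (filter_subset _ _))) hF
  have hE1 : (2 * m : ℝ) ^ (2 * m) * (p : ℝ) ^ n * (p : ℝ) ^ (-(κ * m)) ≤
      (p : ℝ) ^ ((n : ℝ) - 2 * K) / 2 := by
    rw [← Real.rpow_natCast (p : ℝ) n, mul_assoc, ← Real.rpow_add hp0, le_div_iff₀ (by norm_num)]
    calc (2 * m : ℝ) ^ (2 * m) * (p : ℝ) ^ ((n : ℝ) + -(κ * m)) * 2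
        = (2 * (2 * m : ℝ) ^ (2 * m)) * (p : ℝ) ^ ((n : ℝ) + -(κ * m)) := by ring
      _ ≤ (p : ℝ) ^ (1 : ℝ) * (p : ℝ) ^ ((n : ℝ) + -(κ * m)) := by
          rw [Real.rpow_one]
          gcongr
      _ = (p : ℝ) ^ (1 + ((n : ℝ) + -(κ * m))) := (Real.rpow_add hp0 _ _).symm
      _ ≤ _ := hmono _ _ (by linarith)
  have hE2 : (p : ℝ) * ((4 * r : ℝ) ^ (4 * r) * (p : ℝ) ^ n * (p : ℝ) ^ (-(3 * δ * r / 2))) ≤
      (p : ℝ) ^ ((n : ℝ) - 2 * K) / 2 := by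
    rw [← Real.rpow_natCast (p : ℝ) n, mul_assoc, ← Real.rpow_add hp0, le_div_iff₀ (by norm_num)]
    calc (p : ℝ) * ((4 * r : ℝ) ^ (4 * r) * (p : ℝ) ^ ((n : ℝ) + -(3 * δ * r / 2))) * 2
        = (p : ℝ) * ((2 * (4 * r : ℝ) ^ (4 * r)) * (p : ℝ) ^ ((n : ℝ) + -(3 * δ * r / 2))) := by ring
      _ ≤ (p : ℝ) ^ (1 : ℝ) * ((p : ℝ) ^ (1 : ℝ) * (p : ℝ) ^ ((n : ℝ) + -(3 * δ * r / 2))) := by
          rw [Real.rpow_one]
          gcongr
      _ = (p : ℝ) ^ (1 + (1 + ((n : ℝ) + -(3 * δ * r / 2)))) := by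
          rw [← Real.rpow_add hp0, ← Real.rpow_add hp0]
      _ ≤ _ := hmono _ _ (by linarith)
  obtain ⟨e, he⟩ : ∃ e : ℝ, e = (p : ℝ) ^ ((n : ℝ) - 2 * K) := ⟨_, rfl⟩
  rw [← he] at hE1 hE2
  have he0 : 0 ≤ e := by rw [he]; positivity
  calc _ ≤ ((G.biUnion fun A => B1 A ∪ X.biUnion fun χ => B2 A χ).card : ℝ) := by
        rw [← Set.ncard_coe_finset]
        exact Nat.cast_le.2 (Set.ncard_le_ncard hsub (Finset.finite_toSet _))
    _ ≤ ∑ A ∈ G, ((B1 A ∪ X.biUnion fun χ => B2 A χ).card : ℝ) := by exact_mod_cast card_biUnion_le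
    _ ≤ ∑ A ∈ G, e := by
        refine sum_le_sum fun A hAG => ?_
        have h1 : ((B1 A ∪ X.biUnion fun χ => B2 A χ).card : ℝ) ≤
            (B1 A).card + ((X.biUnion fun χ => B2 A χ).card : ℝ) := by exact_mod_cast card_union_le _ _
        have h2 : ((X.biUnion fun χ => B2 A χ).card : ℝ) ≤ e / 2 := by
          calc ((X.biUnion fun χ => B2 A χ).card : ℝ) ≤ ∑ χ ∈ X, ((B2 A χ).card : ℝ) := by
                exact_mod_cast card_biUnion_le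
            _ ≤ ∑ χ ∈ X, ((4 * r : ℝ) ^ (4 * r) * (p : ℝ) ^ n * (p : ℝ) ^ (-(3 * δ * r / 2))) :=
                sum_le_sum fun χ hχX => hc2 A hAG χ hχX
            _ = X.card * ((4 * r : ℝ) ^ (4 * r) * (p : ℝ) ^ n * (p : ℝ) ^ (-(3 * δ * r / 2))) := by
                rw [sum_const, nsmul_eq_mul]
            _ ≤ p * ((4 * r : ℝ) ^ (4 * r) * (p : ℝ) ^ n * (p : ℝ) ^ (-(3 * δ * r / 2))) := by gcongr
            _ ≤ e / 2 := hE2
        have h3 := (hc1 A hAG).trans hE1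
        linarith
    _ = G.card * e := by rw [sum_const, nsmul_eq_mul]
    _ ≤ (p : ℝ) ^ K * e := by gcongr
    _ = (p : ℝ) ^ ((n : ℝ) - K) := by
        rw [he, ← Real.rpow_natCast, ← Real.rpow_add hp0]
        congr 1
        ring

end Pool.Agent.V11298.PI
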