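import Mathlib

/-! # Moments of double character sums over all polynomial images -/

set_option autoImplicit false

namespace Pool.Agent.V11298.PI

open Finset

variable {p : ℕ} [Fact p.Prime]

/-- the value at `b` of the polynomial with the coefficients `c` -/
noncomputable def ev {n : ℕ} (c : Fin n → ZMod p) (b : ZMod p) : ZMod p := ∑ i, c i * b ^ (i : ℕ)

lemma ev_add {n : ℕ} (c d : Fin n → ZMod p) (b : ZMod p) : ev (c + d) b = ev c b + ev d b := by
  unfold ev
  simp only [Pi.add_apply, add_mul, sum_add_distrib]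

lemma ev_smul {n : ℕ} (u : ZMod p) (d : Fin n → ZMod p) (b : ZMod p) : ev (u • d) b = u * ev d b := by
  unfold ev
  simp only [Pi.smul_apply, smul_eq_mul, mul_sum, mul_assoc]

lemma ev_poly {n : ℕ} (q : Polynomial (ZMod p)) (hq : q.natDegree < n) (b : ZMod p) :
    ev (fun i : Fin n => q.coeff i) b = q.eval b := by
  unfold ev
  rw [Polynomial.eval_eq_sum_range' hq, Finset.sum_range]

/-- a coefficient vector which vanishes on `V` and not at `v` -/
lemma exists_vanish {n : ℕ} (V : Finset (ZMod p)) (v : ZMod p) (hv : v ∉ V) (hV : V.card < n) :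
    ∃ d : Fin n → ZMod p, (∀ w ∈ V, ev d w = 0) ∧ ev d v ≠ 0 := by
  classical
  obtain ⟨q, hq⟩ : ∃ q : Polynomial (ZMod p), q = ∏ w ∈ V, (Polynomial.X - Polynomial.C w) := ⟨_, rfl⟩
  have hdeg : q.natDegree = V.card := by
    rw [hq, Polynomial.natDegree_prod_of_monic _ _ fun w _ => Polynomial.monic_X_sub_C w]
    simp
  refine ⟨fun i => q.coeff i, fun w hw => ?_, ?_⟩
  · rw [ev_poly q (by omega), hq, Polynomial.eval_prod]
    exact prod_eq_zero hw (by simp)
  · rw [ev_poly q (by omega), hq, Polynomial.eval_prod, prod_ne_zero_iff]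
    intro w hw
    simp only [Polynomial.eval_sub, Polynomial.eval_X, Polynomial.eval_C]
    exact sub_ne_zero.2 fun h => hv (h ▸ hw)

/-- the values at few points are independent -/
theorem indep {n : ℕ} (V : Finset (ZMod p)) (hV : V.card ≤ n) (g : ZMod p → ZMod p → ℂ) :
    (p : ℂ) ^ V.card * ∑ c : Fin n → ZMod p, ∏ v ∈ V, g v (ev c v) =
      (p : ℂ) ^ n * ∏ v ∈ V, ∑ y, g v y := by
  classical
  induction V using Finset.induction_on with
  | empty => simp
  | insert v V hv ih =>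
    rw [card_insert_of_notMem hv] at hV ⊢
    obtain ⟨d, hd, hdv⟩ := exists_vanish (n := n) V v hv (by omega)
    have h1 : ∀ u : ZMod p, ∑ c : Fin n → ZMod p, ∏ w ∈ insert v V, g w (ev c w) =
        ∑ c : Fin n → ZMod p, g v (ev c v + u * ev d v) * ∏ w ∈ V, g w (ev c w) := by
      intro u
      rw [← Equiv.sum_comp (Equiv.addRight (u • d))]
      refine sum_congr rfl fun c _ => ?_
      rw [prod_insert hv]
      simp only [Equiv.coe_addRight, ev_add, ev_smul]
      congr 1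
      refine prod_congr rfl fun w hw => ?_
      rw [hd w hw, mul_zero, add_zero]
    have h2 : (p : ℂ) * ∑ c : Fin n → ZMod p, ∏ w ∈ insert v V, g w (ev c w) =
        (∑ y, g v y) * ∑ c : Fin n → ZMod p, ∏ w ∈ V, g w (ev c w) := by
      calc (p : ℂ) * ∑ c : Fin n → ZMod p, ∏ w ∈ insert v V, g w (ev c w)
          = ∑ u : ZMod p, ∑ c : Fin n → ZMod p, ∏ w ∈ insert v V, g w (ev c w) := by
            rw [sum_const, card_univ, ZMod.card, nsmul_eq_mul]
        _ = ∑ u : ZMod p, ∑ c : Fin n → ZMod p, g v (ev c v + u * ev d v) * ∏ w ∈ V, g w (ev c w) :=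
            sum_congr rfl fun u _ => h1 u
        _ = ∑ c : Fin n → ZMod p, (∑ u : ZMod p, g v (ev c v + u * ev d v)) * ∏ w ∈ V, g w (ev c w) := by
            rw [sum_comm]
            refine sum_congr rfl fun c _ => ?_
            rw [sum_mul]
        _ = ∑ c : Fin n → ZMod p, (∑ y, g v y) * ∏ w ∈ V, g w (ev c w) := by
            refine sum_congr rfl fun c _ => ?_
            congr 1
            have h3 := Equiv.sum_comp (Equiv.mulRight₀ (ev d v) hdv) (fun y => g v (ev c v + y))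
            have h4 := Equiv.sum_comp (Equiv.addLeft (ev c v)) (g v)
            simp only [Equiv.coe_addLeft] at h4
            rw [← h4, ← h3]
            rfl
        _ = _ := by rw [mul_sum]
    rw [pow_succ, mul_assoc, h2, prod_insert hv]
    have h5 := ih (by omega)
    calc (p : ℂ) ^ V.card * ((∑ y, g v y) * ∑ c : Fin n → ZMod p, ∏ w ∈ V, g w (ev c w))
        = (∑ y, g v y) * ((p : ℂ) ^ V.card * ∑ c : Fin n → ZMod p, ∏ w ∈ V, g w (ev c w)) := by ring
      _ = _ := by rw [h5]; ring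

/-- the sums over `A` -/
noncomputable def W (χ : DirichletCharacter ℂ p) (A : Finset (ZMod p)) (y : ZMod p) : ℂ :=
  ∑ a ∈ A, χ (a + y)

lemma W_le (χ : DirichletCharacter ℂ p) (A : Finset (ZMod p)) (y : ZMod p) : ‖W χ A y‖ ≤ A.card := by
  unfold W
  refine (norm_sum_le _ _).trans ?_
  refine (sum_le_card_nsmul _ _ 1 fun a _ => χ.norm_le_one _).trans (by simp)

lemma sum_chi (χ : DirichletCharacter ℂ p) (hχ : χ ≠ 1) : ∑ y : ZMod p, χ y = 0 :=
  MulChar.sum_eq_zero_of_ne_one hχ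

lemma sum_W (χ : DirichletCharacter ℂ p) (hχ : χ ≠ 1) (A : Finset (ZMod p)) : ∑ y, W χ A y = 0 := by
  unfold W
  rw [sum_comm]
  refine sum_eq_zero fun a _ => ?_
  have h := Equiv.sum_comp (Equiv.addLeft a) (fun y => χ y)
  simp only [Equiv.coe_addLeft] at h
  rw [h, sum_chi χ hχ]

lemma norm_unit (χ : DirichletCharacter ℂ p) {z : ZMod p} (hz : z ≠ 0) : ‖χ z‖ = 1 := by
  have h := χ.unit_norm_eq_one (Units.mk0 z hz)
  simpa using h

lemma conj_eq (χ : DirichletCharacter ℂ p) {w : ZMod p} (hw : w ≠ 0) :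
    (starRingEnd ℂ) (χ w) = χ w⁻¹ := by
  have h1 : χ w * χ w⁻¹ = 1 := by rw [← map_mul, mul_inv_cancel₀ hw, map_one]
  have h2 : χ w * (starRingEnd ℂ) (χ w) = 1 := by
    rw [Complex.mul_conj, Complex.normSq_eq_norm_sq, norm_unit χ hw]
    norm_num
  have h3 : χ w ≠ 0 := fun h => by rw [h, zero_mul] at h1; exact zero_ne_one h1
  exact mul_left_cancel₀ h3 (h2.trans h1.symm)

/-- correlations -/
lemma corr (χ : DirichletCharacter ℂ p) (hχ : χ ≠ 1) (d : ZMod p) (hd : d ≠ 0) :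
    ∑ z : ZMod p, χ (d + z) * (starRingEnd ℂ) (χ z) = -1 := by
  have h1 : ∀ z : ZMod p, z ≠ 0 → χ (d + z) * (starRingEnd ℂ) (χ z) = χ (1 + d * z⁻¹) := by
    intro z hz
    rw [conj_eq χ hz, ← map_mul]
    congr 1
    field_simp
    ring
  have h3 : ∑ z : ZMod p, χ (d + z) * (starRingEnd ℂ) (χ z) =
      ∑ z ∈ univ.erase (0 : ZMod p), χ (1 + d * z⁻¹) := by
    rw [← add_sum_erase univ _ (mem_univ (0 : ZMod p))]
    have : χ (0 : ZMod p) = 0 := MulChar.map_zero χ
    rw [this, map_zero, mul_zero, zero_add]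
    exact sum_congr rfl fun z hz => h1 z (ne_of_mem_erase hz)
  have h4 : ∑ z ∈ univ.erase (0 : ZMod p), χ (1 + d * z⁻¹) = ∑ z ∈ univ.erase (0 : ZMod p), χ (1 + d * z) := by
    refine sum_nbij' (fun z => z⁻¹) (fun z => z⁻¹) ?_ ?_ ?_ ?_ ?_
    · intro z hz
      simp only [mem_erase, mem_univ, and_true] at hz ⊢
      exact inv_ne_zero hz
    · intro z hz
      simp only [mem_erase, mem_univ, and_true] at hz ⊢
      exact inv_ne_zero hz
    · intro z _
      exact inv_inv z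
    · intro z _
      exact inv_inv z
    · intro z _
      rfl
  have h5 : ∑ z : ZMod p, χ (1 + d * z) = 0 := by
    have h6 := Equiv.sum_comp (Equiv.mulLeft₀ d hd) (fun y => χ (1 + y))
    have h7 := Equiv.sum_comp (Equiv.addLeft (1 : ZMod p)) (fun y => χ y)
    simp only [Equiv.coe_addLeft] at h7
    calc ∑ z : ZMod p, χ (1 + d * z) = ∑ z : ZMod p, χ (1 + (Equiv.mulLeft₀ d hd) z) := rfl
      _ = 0 := by rw [h6, h7, sum_chi χ hχ]
  rw [h3, h4]
  have h8 := add_sum_erase univ (fun z => χ (1 + d * z)) (mem_univ (0 : ZMod p))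
  rw [h5, mul_zero, add_zero, map_one] at h8
  linear_combination h8

lemma second (χ : DirichletCharacter ℂ p) (hχ : χ ≠ 1) (A : Finset (ZMod p)) :
    ∑ y, ‖W χ A y‖ ^ 2 ≤ p * A.card := by
  classical
  have hnorm : ∀ z : ZMod p, χ z * (starRingEnd ℂ) (χ z) = if z = 0 then 0 else 1 := by
    intro z
    split_ifs with h
    · rw [h, MulChar.map_zero χ, zero_mul]
    · have h1 : ‖χ z‖ = 1 := norm_unit χ h
      rw [Complex.mul_conj, Complex.normSq_eq_norm_sq, h1]
      norm_num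
  have hpair : ∀ a a' : ZMod p, ∑ y : ZMod p, χ (a + y) * (starRingEnd ℂ) (χ (a' + y)) =
      if a = a' then (p : ℂ) - 1 else -1 := by
    intro a a'
    have h := Equiv.sum_comp (Equiv.addLeft a') (fun z => χ ((a - a') + z) * (starRingEnd ℂ) (χ z))
    simp only [Equiv.coe_addLeft] at h
    have h' : ∑ y : ZMod p, χ (a + y) * (starRingEnd ℂ) (χ (a' + y)) =
        ∑ z : ZMod p, χ ((a - a') + z) * (starRingEnd ℂ) (χ z) := by
      rw [← h]
      refine sum_congr rfl fun y _ => ?_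
      congr 2
      ring
    rw [h']
    split_ifs with haa
    · rw [haa, sub_self]
      simp only [zero_add]
      rw [sum_congr rfl fun z _ => hnorm z]
      have e : ∀ z : ZMod p, (if z = 0 then (0 : ℂ) else 1) = 1 - (if z = 0 then 1 else 0) := by
        intro z
        split_ifs <;> ring
      rw [sum_congr rfl fun z _ => e z, sum_sub_distrib, sum_ite_eq' univ (0 : ZMod p)]
      simp [ZMod.card]
    · exact corr χ hχ _ (sub_ne_zero.2 haa)
  have key : ((∑ y, ‖W χ A y‖ ^ 2 : ℝ) : ℂ) = (A.card : ℂ) * p - (A.card : ℂ) ^ 2 := by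
    have h1 : ((∑ y, ‖W χ A y‖ ^ 2 : ℝ) : ℂ) =
        ∑ y : ZMod p, ∑ a ∈ A, ∑ a' ∈ A, χ (a + y) * (starRingEnd ℂ) (χ (a' + y)) := by
      rw [Complex.ofReal_sum]
      refine sum_congr rfl fun y _ => ?_
      rw [← Complex.normSq_eq_norm_sq, ← Complex.mul_conj]
      unfold W
      rw [map_sum, sum_mul_sum]
    rw [h1, sum_comm]
    have h2 : ∀ a ∈ A, ∑ y : ZMod p, ∑ a' ∈ A, χ (a + y) * (starRingEnd ℂ) (χ (a' + y)) =
        (p : ℂ) - A.card := by
      intro a ha
      rw [sum_comm]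
      rw [sum_congr rfl fun a' _ => hpair a a']
      have h3 : ∀ a' : ZMod p, (if a = a' then (p : ℂ) - 1 else -1) = (if a = a' then (p : ℂ) else 0) - 1 := by
        intro a'
        split_ifs <;> ring
      rw [sum_congr rfl fun a' _ => h3 a', sum_sub_distrib, sum_ite_eq A a, if_pos ha]
      simp
    rw [sum_congr rfl h2, sum_const, nsmul_eq_mul]
    ring
  have key' : ∑ y, ‖W χ A y‖ ^ 2 = (A.card : ℝ) * p - (A.card : ℝ) ^ 2 := by
    exact_mod_cast key
  rw [key']
  nlinarith [sq_nonneg (A.card : ℝ)]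

/-- the factors of the expanded moments -/
noncomputable def ph (χ : DirichletCharacter ℂ p) (A : Finset (ZMod p)) (r : ℕ) (i : Fin r ⊕ Fin r)
    (y : ZMod p) : ℂ := Sum.elim (fun _ => W χ A y) (fun _ => (starRingEnd ℂ) (W χ A y)) i

lemma norm_ph (χ : DirichletCharacter ℂ p) (A : Finset (ZMod p)) (r : ℕ) (i : Fin r ⊕ Fin r) (y : ZMod p) :
    ‖ph χ A r i y‖ = ‖W χ A y‖ := by
  unfold ph
  rcases i with i | i
  · rfl
  · simp

lemma sum_ph (χ : DirichletCharacter ℂ p) (hχ : χ ≠ 1) (A : Finset (ZMod p)) (r : ℕ) (i : Fin r ⊕ Fin r) :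
    ∑ y, ph χ A r i y = 0 := by
  unfold ph
  rcases i with i | i
  · exact sum_W χ hχ A
  · simp only [Sum.elim_inr]
    rw [← map_sum, sum_W χ hχ A, map_zero]

lemma expand (χ : DirichletCharacter ℂ p) (A B : Finset (ZMod p)) (r : ℕ) (w : ZMod p → ZMod p) :
    ((‖∑ b ∈ B, W χ A (w b)‖ ^ (2 * r) : ℝ) : ℂ) =
      ∑ β ∈ Fintype.piFinset (fun _ : Fin r ⊕ Fin r => B), ∏ i, ph χ A r i (w (β i)) := by
  classical
  rw [← Finset.prod_univ_sum (fun _ : Fin r ⊕ Fin r => B) (fun i b => ph χ A r i (w b)), Fintype.prod_sum_type]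
  unfold ph
  simp only [Sum.elim_inl, Sum.elim_inr, prod_const, card_univ, Fintype.card_fin]
  rw [← map_sum, ← mul_pow, Complex.mul_conj, Complex.normSq_eq_norm_sq, pow_mul]
  push_cast
  ring

lemma fiber_bound (χ : DirichletCharacter ℂ p) (hχ : χ ≠ 1) (A : Finset (ZMod p)) (r : ℕ)
    (s : Finset (Fin r ⊕ Fin r)) (hs : s.Nonempty) :
    ‖∑ y, ∏ i ∈ s, ph χ A r i y‖ ≤ p * (A.card : ℝ) ^ (s.card - 1) := by
  classical
  rcases Nat.lt_or_ge s.card 2 with h | h
  · have h1 : s.card = 1 := by have := hs.card_pos; omega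
    obtain ⟨i, hi⟩ := card_eq_one.1 h1
    rw [hi]
    simp only [prod_singleton]
    rw [sum_ph χ hχ A r i, norm_zero]
    positivity
  · refine (norm_sum_le _ _).trans ?_
    have h1 : ∀ y : ZMod p, ‖∏ i ∈ s, ph χ A r i y‖ ≤ ‖W χ A y‖ ^ 2 * (A.card : ℝ) ^ (s.card - 2) := by
      intro y
      rw [norm_prod, prod_congr rfl fun i _ => norm_ph χ A r i y, prod_const]
      calc ‖W χ A y‖ ^ s.card = ‖W χ A y‖ ^ 2 * ‖W χ A y‖ ^ (s.card - 2) := by
            rw [← pow_add]
            congr 1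
            omega
        _ ≤ _ := by
            gcongr
            exact W_le χ A y
    refine (sum_le_sum fun y _ => h1 y).trans ?_
    rw [← sum_mul]
    calc (∑ y, ‖W χ A y‖ ^ 2) * (A.card : ℝ) ^ (s.card - 2)
        ≤ (p * A.card) * (A.card : ℝ) ^ (s.card - 2) :=
          mul_le_mul_of_nonneg_right (second χ hχ A) (by positivity)
      _ = p * (A.card : ℝ) ^ (s.card - 1) := by
          have : s.card - 1 = (s.card - 2) + 1 := by omega
          rw [this, pow_succ]
          ring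

lemma tuple_bound (χ : DirichletCharacter ℂ p) (hχ : χ ≠ 1) (A : Finset (ZMod p)) (r n : ℕ) (hr : 2 * r ≤ n)
    (β : Fin r ⊕ Fin r → ZMod p) :
    (A.card : ℝ) ^ (univ.image β).card * ‖∑ c : Fin n → ZMod p, ∏ i, ph χ A r i (ev c (β i))‖ ≤
      (p : ℝ) ^ n * (A.card : ℝ) ^ (2 * r) := by
  classical
  have hp0 : (0 : ℝ) < p := by exact_mod_cast (Fact.out : p.Prime).pos
  set V := univ.image β with hV
  have hVc : V.card ≤ n := by
    have h1 : V.card ≤ (univ : Finset (Fin r ⊕ Fin r)).card := card_image_le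
    have h2 : (univ : Finset (Fin r ⊕ Fin r)).card = 2 * r := by
      rw [card_univ, Fintype.card_sum, Fintype.card_fin]
      ring
    omega
  have h1 : ∀ c : Fin n → ZMod p, ∏ i, ph χ A r i (ev c (β i)) =
      ∏ v ∈ V, ∏ i ∈ univ.filter (fun i => β i = v), ph χ A r i (ev c v) := by
    intro c
    rw [← prod_fiberwise_of_maps_to (t := V) (g := β) (fun i _ => mem_image_of_mem β (mem_univ i))]
    refine prod_congr rfl fun v _ => prod_congr rfl fun i hi => ?_
    rw [(mem_filter.1 hi).2]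
  rw [sum_congr rfl fun c _ => h1 c]
  have h2 := indep (n := n) V hVc (fun v y => ∏ i ∈ univ.filter (fun i => β i = v), ph χ A r i y)
  have h3 : (p : ℝ) ^ V.card * ‖∑ c : Fin n → ZMod p, ∏ v ∈ V,
      ∏ i ∈ univ.filter (fun i => β i = v), ph χ A r i (ev c v)‖ =
      (p : ℝ) ^ n * ∏ v ∈ V, ‖∑ y, ∏ i ∈ univ.filter (fun i => β i = v), ph χ A r i y‖ := by
    have h4 := congrArg norm h2
    rw [norm_mul, norm_mul, norm_prod, norm_pow, norm_pow] at h4
    simpa using h4
  have h5 : (A.card : ℝ) ^ V.card * ∏ v ∈ V, ‖∑ y, ∏ i ∈ univ.filter (fun i => β i = v), ph χ A r i y‖ ≤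
      (p : ℝ) ^ V.card * (A.card : ℝ) ^ (2 * r) := by
    have hsum : ∑ v ∈ V, (univ.filter (fun i => β i = v)).card = 2 * r := by
      rw [← card_eq_sum_card_fiberwise (fun i _ => mem_image_of_mem β (mem_univ i)), card_univ, Fintype.card_sum,
        Fintype.card_fin]
      ring
    calc (A.card : ℝ) ^ V.card * ∏ v ∈ V, ‖∑ y, ∏ i ∈ univ.filter (fun i => β i = v), ph χ A r i y‖
        = ∏ v ∈ V, ((A.card : ℝ) * ‖∑ y, ∏ i ∈ univ.filter (fun i => β i = v), ph χ A r i y‖) := by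
          rw [prod_mul_distrib, prod_const]
      _ ≤ ∏ v ∈ V, ((p : ℝ) * (A.card : ℝ) ^ (univ.filter (fun i => β i = v)).card) := by
          refine prod_le_prod (fun v _ => by positivity) fun v hv => ?_
          obtain ⟨i, _, hi⟩ := mem_image.1 hv
          have hne : (univ.filter (fun i => β i = v)).Nonempty := ⟨i, mem_filter.2 ⟨mem_univ _, hi⟩⟩
          calc (A.card : ℝ) * ‖∑ y, ∏ i ∈ univ.filter (fun i => β i = v), ph χ A r i y‖
              ≤ A.card * (p * (A.card : ℝ) ^ ((univ.filter (fun i => β i = v)).card - 1)) :=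
                mul_le_mul_of_nonneg_left (fiber_bound χ hχ A r _ hne) (by positivity)
            _ = p * (A.card : ℝ) ^ (univ.filter (fun i => β i = v)).card := by
                have : (univ.filter (fun i => β i = v)).card =
                    ((univ.filter (fun i => β i = v)).card - 1) + 1 := by
                  have := hne.card_pos
                  omega
                conv_rhs => rw [this, pow_succ]
                ring
      _ = _ := by
          rw [prod_mul_distrib, prod_const, prod_pow_eq_pow_sum, hsum]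
  have h6 : (0 : ℝ) < (p : ℝ) ^ V.card := by positivity
  refine le_of_mul_le_mul_left ?_ h6
  calc (p : ℝ) ^ V.card * ((A.card : ℝ) ^ V.card * ‖∑ c : Fin n → ZMod p, ∏ v ∈ V,
      ∏ i ∈ univ.filter (fun i => β i = v), ph χ A r i (ev c v)‖)
      = (A.card : ℝ) ^ V.card * ((p : ℝ) ^ V.card * ‖∑ c : Fin n → ZMod p, ∏ v ∈ V,
      ∏ i ∈ univ.filter (fun i => β i = v), ph χ A r i (ev c v)‖) := by ring
    _ = (p : ℝ) ^ n * ((A.card : ℝ) ^ V.card *
        ∏ v ∈ V, ‖∑ y, ∏ i ∈ univ.filter (fun i => β i = v), ph χ A r i y‖) := by rw [h3]; ring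
    _ ≤ (p : ℝ) ^ n * ((p : ℝ) ^ V.card * (A.card : ℝ) ^ (2 * r)) :=
        mul_le_mul_of_nonneg_left h5 (by positivity)
    _ = _ := by ring

/-- counting tuples by their kernels -/
lemma kernels {ι α : Type} [Fintype ι] [DecidableEq ι] [Nonempty ι] [DecidableEq α] (B : Finset α) (x : ℝ)
    (hx : 0 ≤ x) :
    ∑ β ∈ Fintype.piFinset (fun _ : ι => B), x ^ (univ.image β).card ≤
      ∑ σ : ι → ι, ((B.card : ℝ) * x) ^ (univ.image σ).card := by
  classical
  set K : (ι → α) → (ι → ι) := fun β i => Function.invFun β (β i) with hK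
  have hinv : ∀ (β : ι → α) (i : ι), β (K β i) = β i := fun β i => Function.invFun_eq ⟨i, rfl⟩
  have hcard : ∀ β : ι → α, (univ.image β).card = (univ.image (K β)).card := by
    intro β
    have h1 : univ.image (K β) = (univ.image β).image (Function.invFun β) := by
      rw [image_image]
      rfl
    rw [h1, card_image_of_injOn (s := univ.image β)]
    intro a ha b hb hab
    obtain ⟨i, _, rfl⟩ := mem_image.1 (mem_coe.1 ha)
    obtain ⟨j, _, rfl⟩ := mem_image.1 (mem_coe.1 hb)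
    rw [← hinv β i, ← hinv β j]
    exact congrArg β hab
  rw [← sum_fiberwise (Fintype.piFinset (fun _ : ι => B)) K]
  refine sum_le_sum fun σ _ => ?_
  have h2 : ∑ β ∈ (Fintype.piFinset (fun _ : ι => B)).filter (fun β => K β = σ), x ^ (univ.image β).card =
      ((Fintype.piFinset (fun _ : ι => B)).filter (fun β => K β = σ)).card * x ^ (univ.image σ).card := by
    rw [sum_congr rfl (g := fun _ => x ^ (univ.image σ).card), sum_const, nsmul_eq_mul]
    intro β hβ
    rw [hcard β, (mem_filter.1 hβ).2]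
  rw [h2, mul_pow]
  refine mul_le_mul_of_nonneg_right ?_ (by positivity)
  have h3 : ((Fintype.piFinset (fun _ : ι => B)).filter (fun β => K β = σ)).card ≤
      (Fintype.piFinset (fun _ : (univ.image σ : Finset ι) => B)).card := by
    refine card_le_card_of_injOn (fun β i => β i) ?_ ?_
    · intro β hβ
      have h4 := Fintype.mem_piFinset.1 (mem_filter.1 (mem_coe.1 hβ)).1
      exact mem_coe.2 (Fintype.mem_piFinset.2 fun i => h4 _)
    · intro β hβ γ hγ hβγ
      have h5 := (mem_filter.1 (mem_coe.1 hβ)).2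
      have h6 := (mem_filter.1 (mem_coe.1 hγ)).2
      funext i
      rw [← hinv β i, ← hinv γ i, h5, h6]
      exact congrFun hβγ ⟨σ i, mem_image_of_mem σ (mem_univ i)⟩
  rw [Fintype.card_piFinset, prod_const, card_univ, Fintype.card_coe] at h3
  exact_mod_cast h3

/-- **Moments over all polynomials of degree less than `n`.** -/
theorem moment (χ : DirichletCharacter ℂ p) (hχ : χ ≠ 1) (A B : Finset (ZMod p)) (r n : ℕ) (hr0 : 1 ≤ r)
    (hr : 2 * r ≤ n) (M : ℝ) (hM : 0 < M) (hA : M ≤ A.card) (hB : M ≤ B.card) :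
    ∑ c : Fin n → ZMod p, ‖∑ b ∈ B, W χ A (ev c b)‖ ^ (2 * r) ≤
      (2 * r : ℝ) ^ (2 * r) * (p : ℝ) ^ n * (A.card * B.card / M) ^ (2 * r) := by
  classical
  have hp0 : (0 : ℝ) < p := by exact_mod_cast (Fact.out : p.Prime).pos
  have hA0 : (0 : ℝ) < A.card := lt_of_lt_of_le hM hA
  have hB0 : (0 : ℝ) < B.card := lt_of_lt_of_le hM hB
  haveI : Nonempty (Fin r ⊕ Fin r) := ⟨Sum.inl ⟨0, hr0⟩⟩
  have h1 : ((∑ c : Fin n → ZMod p, ‖∑ b ∈ B, W χ A (ev c b)‖ ^ (2 * r) : ℝ) : ℂ) =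
      ∑ β ∈ Fintype.piFinset (fun _ : Fin r ⊕ Fin r => B), ∑ c : Fin n → ZMod p,
        ∏ i, ph χ A r i (ev c (β i)) := by
    rw [Complex.ofReal_sum, sum_comm]
    exact sum_congr rfl fun c _ => expand χ A B r (ev c)
  have h2 : ∑ c : Fin n → ZMod p, ‖∑ b ∈ B, W χ A (ev c b)‖ ^ (2 * r) ≤
      ∑ β ∈ Fintype.piFinset (fun _ : Fin r ⊕ Fin r => B),
        ‖∑ c : Fin n → ZMod p, ∏ i, ph χ A r i (ev c (β i))‖ := by
    have h3 : 0 ≤ ∑ c : Fin n → ZMod p, ‖∑ b ∈ B, W χ A (ev c b)‖ ^ (2 * r) :=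
      sum_nonneg fun c _ => by positivity
    calc ∑ c : Fin n → ZMod p, ‖∑ b ∈ B, W χ A (ev c b)‖ ^ (2 * r)
        = ‖((∑ c : Fin n → ZMod p, ‖∑ b ∈ B, W χ A (ev c b)‖ ^ (2 * r) : ℝ) : ℂ)‖ := by
          rw [Complex.norm_real, Real.norm_of_nonneg h3]
      _ ≤ _ := by
          rw [h1]
          exact norm_sum_le _ _
  refine h2.trans ?_
  have h4 : ∀ β : Fin r ⊕ Fin r → ZMod p, ‖∑ c : Fin n → ZMod p, ∏ i, ph χ A r i (ev c (β i))‖ ≤
      (p : ℝ) ^ n * (A.card : ℝ) ^ (2 * r) * ((A.card : ℝ)⁻¹) ^ (univ.image β).card := by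
    intro β
    have h5 := tuple_bound χ hχ A r n hr β
    rw [inv_pow, ← div_eq_mul_inv, le_div_iff₀ (by positivity), mul_comm]
    exact h5
  refine (sum_le_sum fun β _ => h4 β).trans ?_
  rw [← mul_sum]
  have h6 := kernels (ι := Fin r ⊕ Fin r) B ((A.card : ℝ)⁻¹) (by positivity)
  have h7 : ∀ σ : Fin r ⊕ Fin r → Fin r ⊕ Fin r, ((B.card : ℝ) * (A.card : ℝ)⁻¹) ^ (univ.image σ).card ≤
      (B.card / M) ^ (2 * r) := by
    intro σ
    have hc : (univ.image σ).card ≤ 2 * r := by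
      have h8 : (univ.image σ).card ≤ (univ : Finset (Fin r ⊕ Fin r)).card := card_image_le
      have h9 : (univ : Finset (Fin r ⊕ Fin r)).card = 2 * r := by
        rw [card_univ, Fintype.card_sum, Fintype.card_fin]
        ring
      omega
    have h10 : (B.card : ℝ) * (A.card : ℝ)⁻¹ ≤ B.card / M := by
      rw [div_eq_mul_inv]
      exact mul_le_mul_of_nonneg_left (inv_anti₀ hM hA) (by positivity)
    have h11 : (1 : ℝ) ≤ B.card / M := by
      rw [le_div_iff₀ hM, one_mul]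
      exact hB
    exact (pow_le_pow_left₀ (by positivity) h10 _).trans (pow_le_pow_right₀ h11 hc)
  have h12 : ∑ σ : Fin r ⊕ Fin r → Fin r ⊕ Fin r, ((B.card : ℝ) * (A.card : ℝ)⁻¹) ^ (univ.image σ).card ≤
      (2 * r : ℝ) ^ (2 * r) * (B.card / M) ^ (2 * r) := by
    refine (sum_le_sum fun σ _ => h7 σ).trans ?_
    rw [sum_const, card_univ, nsmul_eq_mul]
    refine le_of_eq ?_
    congr 1
    rw [Fintype.card_fun, Fintype.card_sum, Fintype.card_fin, ← two_mul]
    push_cast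
    rfl
  calc (p : ℝ) ^ n * (A.card : ℝ) ^ (2 * r) *
      ∑ β ∈ Fintype.piFinset (fun _ : Fin r ⊕ Fin r => B), ((A.card : ℝ)⁻¹) ^ (univ.image β).card
      ≤ (p : ℝ) ^ n * (A.card : ℝ) ^ (2 * r) * ((2 * r : ℝ) ^ (2 * r) * (B.card / M) ^ (2 * r)) :=
        mul_le_mul_of_nonneg_left (h6.trans h12) (by positivity)
    _ = _ := by
        rw [mul_div_assoc, mul_pow (A.card : ℝ)]
        ring

/-- **Few exceptional polynomials.** -/
theorem count (χ : DirichletCharacter ℂ p) (hχ : χ ≠ 1) (A B : Finset (ZMod p)) (r n : ℕ) (hr0 : 1 ≤ r)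
    (hr : 2 * r ≤ n) (M θ : ℝ) (hM : 0 < M) (hθ : 0 < θ) (hA : M ≤ A.card) (hB : M ≤ B.card) :
    ({c : Fin n → ZMod p | θ * (A.card * B.card) ≤
      ‖∑ a ∈ A, ∑ b ∈ B, χ (a + ∑ i, c i * b ^ (i : ℕ))‖}.ncard : ℝ) ≤
      (2 * r : ℝ) ^ (2 * r) * (p : ℝ) ^ n / (θ * M) ^ (2 * r) := by
  classical
  have hA0 : (0 : ℝ) < A.card := lt_of_lt_of_le hM hA
  have hB0 : (0 : ℝ) < B.card := lt_of_lt_of_le hM hB
  have hS : ∀ c : Fin n → ZMod p, ∑ a ∈ A, ∑ b ∈ B, χ (a + ∑ i, c i * b ^ (i : ℕ)) =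
      ∑ b ∈ B, W χ A (ev c b) := by
    intro c
    rw [sum_comm]
    rfl
  simp only [hS]
  have h1 := moment χ hχ A B r n hr0 hr M hM hA hB
  set T : Finset (Fin n → ZMod p) := univ.filter fun c => θ * (A.card * B.card) ≤ ‖∑ b ∈ B, W χ A (ev c b)‖
    with hT
  have h2 : {c : Fin n → ZMod p | θ * (A.card * B.card) ≤ ‖∑ b ∈ B, W χ A (ev c b)‖}.ncard = T.card := by
    rw [← Set.ncard_coe_finset T]
    congr 1
    ext c
    simp [hT]
  rw [h2, le_div_iff₀ (by positivity)]
  have h3 : (T.card : ℝ) * (θ * (A.card * B.card)) ^ (2 * r) ≤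
      ∑ c : Fin n → ZMod p, ‖∑ b ∈ B, W χ A (ev c b)‖ ^ (2 * r) := by
    calc (T.card : ℝ) * (θ * (A.card * B.card)) ^ (2 * r) = ∑ c ∈ T, (θ * (A.card * B.card)) ^ (2 * r) := by
          rw [sum_const, nsmul_eq_mul]
      _ ≤ ∑ c ∈ T, ‖∑ b ∈ B, W χ A (ev c b)‖ ^ (2 * r) :=
          sum_le_sum fun c hc => pow_le_pow_left₀ (by positivity) (mem_filter.1 hc).2 _
      _ ≤ _ := sum_le_sum_of_subset_of_nonneg (subset_univ _) fun c _ _ => by positivity
  have h4 := h3.trans h1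
  have h5 : (0 : ℝ) < ((A.card * B.card) / M) ^ (2 * r) := by positivity
  refine le_of_mul_le_mul_right ?_ h5
  calc (T.card : ℝ) * (θ * M) ^ (2 * r) * ((A.card * B.card) / M) ^ (2 * r)
      = T.card * (θ * (A.card * B.card)) ^ (2 * r) := by
        rw [mul_assoc, ← mul_pow]
        congr 2
        field_simp
    _ ≤ _ := h4

end Pool.Agent.V11298.PI
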