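import Pool.Agent.Y881.PG.Sets
import Pool.Agent.V11298.PI.Mom

/-! # Double character sums over polynomial images: level sets and pencils -/

set_option autoImplicit false

namespace Pool.Agent.V11298.PI

open Finset

section

variable {p : ℕ} [Fact p.Prime]

open Classical in
/-- level sets of the multiplicities of the values -/
noncomputable def lev (B : Finset (ZMod p)) (g : ZMod p → ZMod p) (j : ℕ) : Finset (ZMod p) :=
  univ.filter fun y => j < (B.filter fun b => g b = y).card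

open Classical in
lemma sum_lev (B : Finset (ZMod p)) (g : ZMod p → ZMod p) (k : ℕ)
    (hk : ∀ y, (B.filter fun b => g b = y).card ≤ k) (G : ZMod p → ℂ) :
    ∑ b ∈ B, G (g b) = ∑ j ∈ range k, ∑ y ∈ lev B g j, G y := by
  have h1 : ∑ b ∈ B, G (g b) = ∑ y, ((B.filter fun b => g b = y).card : ℂ) * G y := by
    rw [← sum_fiberwise B g (fun b => G (g b))]
    refine sum_congr rfl fun y _ => ?_
    rw [sum_congr rfl (g := fun _ => G y), sum_const, nsmul_eq_mul]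
    intro b hb
    rw [(mem_filter.1 hb).2]
  have h2 : ∑ j ∈ range k, ∑ y ∈ lev B g j, G y =
      ∑ y, ((B.filter fun b => g b = y).card : ℂ) * G y := by
    unfold lev
    simp only [sum_filter]
    rw [sum_comm]
    refine sum_congr rfl fun y _ => ?_
    rw [← sum_filter, sum_const, nsmul_eq_mul]
    congr 2
    have : (range k).filter (fun j => j < (B.filter fun b => g b = y).card) =
        range (B.filter fun b => g b = y).card := by
      ext j
      simp only [mem_filter, mem_range]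
      have := hk y
      omega
    rw [this, card_range]
  rw [h1, h2]

lemma lev_card (B : Finset (ZMod p)) (g : ZMod p → ZMod p) (j : ℕ) : (lev B g j).card ≤ B.card := by
  classical
  refine le_trans (card_le_card ?_) (card_image_le (s := B) (f := g))
  intro y hy
  unfold lev at hy
  have h1 := (mem_filter.1 hy).2
  have h2 : 0 < (B.filter fun b => g b = y).card := by
    refine lt_of_le_of_lt (Nat.zero_le j) ?_
    convert h1
  obtain ⟨b, hb⟩ := card_pos.1 h2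
  exact mem_image.2 ⟨b, (mem_filter.1 hb).1, (mem_filter.1 hb).2⟩

/-- the polynomial with the coefficients `h` and constant term `0` -/
noncomputable def hv {k : ℕ} (h : Fin k → ZMod p) (b : ZMod p) : ZMod p := ∑ i, h i * b ^ ((i : ℕ) + 1)

lemma hv_smul {k : ℕ} (t : ZMod p) (h : Fin k → ZMod p) (b : ZMod p) : hv (t • h) b = t * hv h b := by
  unfold hv
  simp only [Pi.smul_apply, smul_eq_mul, mul_sum, mul_assoc]

open Classical in
lemma fibre {k : ℕ} (h : Fin k → ZMod p) (hh : h ≠ 0) (B : Finset (ZMod p)) (y : ZMod p) :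
    (B.filter fun b => hv h b = y).card ≤ k := by
  obtain ⟨i₀, hi₀⟩ := Function.ne_iff.1 hh
  obtain ⟨P, hP⟩ : ∃ P : Polynomial (ZMod p), P =
      (∑ i : Fin k, Polynomial.C (h i) * Polynomial.X ^ ((i : ℕ) + 1)) - Polynomial.C y := ⟨_, rfl⟩
  have hev : ∀ b, P.eval b = hv h b - y := by
    intro b
    rw [hP]
    simp [Polynomial.eval_finsetSum, hv]
  have hc : P.coeff ((i₀ : ℕ) + 1) = h i₀ := by
    rw [hP, Polynomial.coeff_sub, Polynomial.finsetSum_coeff]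
    simp only [Polynomial.coeff_C_mul_X_pow]
    rw [Polynomial.coeff_C, if_neg (by omega), sub_zero]
    rw [sum_eq_single i₀]
    · simp
    · intro i _ hi
      rw [if_neg]
      intro h1
      exact hi (Fin.ext (by omega))
    · intro h1
      exact absurd (mem_univ _) h1
  have hP0 : P ≠ 0 := by
    intro h1
    rw [h1, Polynomial.coeff_zero] at hc
    exact hi₀ hc.symm
  have hdeg : P.natDegree ≤ k := by
    rw [hP]
    refine (Polynomial.natDegree_sub_le _ _).trans ?_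
    rw [Polynomial.natDegree_C, Nat.max_eq_left (Nat.zero_le _)]
    refine Polynomial.natDegree_sum_le_of_forall_le _ _ fun i _ => ?_
    refine (Polynomial.natDegree_C_mul_X_pow_le _ _).trans ?_
    have := i.2
    omega
  have hsub : (B.filter fun b => hv h b = y) ⊆ P.roots.toFinset := by
    intro b hb
    rw [Multiset.mem_toFinset, Polynomial.mem_roots hP0, Polynomial.IsRoot.def, hev, (mem_filter.1 hb).2, sub_self]
  exact (card_le_card hsub).trans ((Multiset.toFinset_card_le _).trans ((Polynomial.card_roots' P).trans hdeg))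

lemma ncard_eq {α : Type} [Fintype α] (P : α → Prop) [DecidablePred P] :
    {x | P x}.ncard = (univ.filter P).card := by
  classical
  rw [← Set.ncard_coe_finset]
  congr 1
  ext x
  simp

/-- averaging over the scalar multiples -/
theorem scale {k : ℕ} (P : ZMod p → (Fin k → ZMod p) → Prop) (M : ℝ) (hM0 : 0 ≤ M)
    (hM : ∀ h : Fin k → ZMod p, h ≠ 0 → ({q : ZMod p × ZMod p | q.2 ≠ 0 ∧ P q.1 (q.2 • h)}.ncard : ℝ) ≤ M) :
    ((p : ℝ) - 1) * ({x : ZMod p × (Fin k → ZMod p) | x.2 ≠ 0 ∧ P x.1 x.2}.ncard : ℝ) ≤ (p : ℝ) ^ k * M := by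
  classical
  have hp := (Fact.out : p.Prime).one_lt
  rw [ncard_eq]
  set X := univ.filter fun x : ZMod p × (Fin k → ZMod p) => x.2 ≠ 0 ∧ P x.1 x.2 with hX
  set Z := univ.filter fun z : (Fin k → ZMod p) × (ZMod p × ZMod p) =>
    z.1 ≠ 0 ∧ z.2.2 ≠ 0 ∧ P z.2.1 (z.2.2 • z.1) with hZ
  have h1 : ((univ.erase (0 : ZMod p)) ×ˢ X).card ≤ Z.card := by
    refine card_le_card_of_injOn (fun y => (y.1⁻¹ • y.2.2, (y.2.1, y.1))) ?_ ?_
    · intro y hy
      have h2 := mem_product.1 (mem_coe.1 hy)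
      have h3 : y.1 ≠ 0 := ne_of_mem_erase h2.1
      have h4 := (mem_filter.1 h2.2).2
      refine mem_coe.2 (mem_filter.2 ⟨mem_univ _, ?_, h3, ?_⟩)
      · exact smul_ne_zero (inv_ne_zero h3) h4.1
      · show P y.2.1 (y.1 • y.1⁻¹ • y.2.2)
        rw [smul_smul, mul_inv_cancel₀ h3, one_smul]
        exact h4.2
    · intro y hy z hz hyz
      have h2 := mem_product.1 (mem_coe.1 hy)
      have h3 : y.1 ≠ 0 := ne_of_mem_erase h2.1
      simp only [Prod.mk.injEq] at hyz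
      obtain ⟨e1, e2, e3⟩ := hyz
      refine Prod.ext e3 (Prod.ext e2 ?_)
      rw [← e3] at e1
      have h5 := congrArg (fun v => y.1 • v) e1
      simpa only [smul_smul, mul_inv_cancel₀ h3, one_smul] using h5
  have h2 : ((univ.erase (0 : ZMod p)) ×ˢ X).card = (p - 1) * X.card := by
    rw [card_product, card_erase_of_mem (mem_univ _), card_univ, ZMod.card]
  have h3 : (Z.card : ℝ) ≤ (p : ℝ) ^ k * M := by
    have h4 : Z.card = ∑ h : Fin k → ZMod p,
        (univ.filter fun q : ZMod p × ZMod p => h ≠ 0 ∧ q.2 ≠ 0 ∧ P q.1 (q.2 • h)).card := by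
      rw [hZ, card_filter, ← univ_product_univ, sum_product]
      refine sum_congr rfl fun h _ => ?_
      rw [card_filter]
    rw [h4]
    push_cast
    calc ∑ h : Fin k → ZMod p,
        ((univ.filter fun q : ZMod p × ZMod p => h ≠ 0 ∧ q.2 ≠ 0 ∧ P q.1 (q.2 • h)).card : ℝ)
        ≤ ∑ _h : Fin k → ZMod p, M := by
          refine sum_le_sum fun h _ => ?_
          by_cases hh : h = 0
          · have : (univ.filter fun q : ZMod p × ZMod p => h ≠ 0 ∧ q.2 ≠ 0 ∧ P q.1 (q.2 • h)) = ∅ := by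
              rw [filter_eq_empty_iff]
              intro q _ h5
              exact h5.1 hh
            rw [this, card_empty]
            simpa using hM0
          · refine le_trans ?_ (hM h hh)
            rw [ncard_eq]
            refine Nat.cast_le.2 (card_le_card ?_)
            intro q hq
            exact mem_filter.2 ⟨mem_univ _, (mem_filter.1 hq).2.2⟩
      _ = (p : ℝ) ^ k * M := by
          rw [sum_const, card_univ, Fintype.card_fun, ZMod.card, Fintype.card_fin, nsmul_eq_mul]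
          push_cast
          ring
  refine le_trans ?_ h3
  have h4 : ((p - 1 : ℕ) : ℝ) = (p : ℝ) - 1 := by
    rw [Nat.cast_sub hp.le]
    simp
  rw [← h4]
  rw [h2] at h1
  exact_mod_cast h1

end

theorem one (ε : ℝ) (hε : 0 < ε) : ∃ c : ℝ, 0 < c ∧ ∃ δ : ℝ, 0 < δ ∧ ∀ k : ℕ, 1 ≤ k → ∃ p₀ : ℕ,
    ∀ (p : ℕ) [Fact p.Prime], p₀ ≤ p → ∀ χ : DirichletCharacter ℂ p, χ ≠ 1 →
    ∀ A B : Finset (ZMod p), (p : ℝ) ^ ε ≤ A.card → (p : ℝ) ^ ε ≤ B.card →
    ∀ h : Fin k → ZMod p, h ≠ 0 →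
      (({q : ZMod p × ZMod p | q.2 ≠ 0 ∧ (p : ℝ) ^ (-δ) * (A.card * B.card) <
          ‖∑ a ∈ A, ∑ b ∈ B, χ (a + (q.1 + q.2 * hv h b))‖}.ncard : ℕ) : ℝ) ≤
        k * min ((p : ℝ) ^ (1 - c)) ((p : ℝ) ^ (3 / 2 + ε / 2) / A.card) := by
  classical
  obtain ⟨c, hc, δ₀, hδ₀, p₁, haff⟩ := Pool.Agent.Y881.PG.affine_final (ε / 2) (by positivity)
  obtain ⟨δ, hδ⟩ : ∃ δ : ℝ, δ = min δ₀ (ε / 2) / 2 := ⟨_, rfl⟩
  have hδ0 : 0 < δ := by rw [hδ]; positivity
  have hδ1 : 2 * δ ≤ δ₀ := by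
    rw [hδ]
    have := min_le_left δ₀ (ε / 2)
    linarith
  have hδ2 : 2 * δ ≤ ε / 2 := by
    rw [hδ]
    have := min_le_right δ₀ (ε / 2)
    linarith
  refine ⟨c, hc, δ, hδ0, fun k hk => ?_⟩
  obtain ⟨p₂, hp₂⟩ : ∃ p₂ : ℕ, ∀ p : ℕ, p₂ ≤ p → (k : ℝ) ≤ (p : ℝ) ^ δ := by
    have h1 : Filter.Tendsto (fun p : ℕ => (p : ℝ) ^ δ) Filter.atTop Filter.atTop :=
      (tendsto_rpow_atTop hδ0).comp tendsto_natCast_atTop_atTop
    obtain ⟨p₂, h2⟩ := Filter.eventually_atTop.1 (h1.eventually_ge_atTop (k : ℝ))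
    exact ⟨p₂, h2⟩
  refine ⟨p₁ + p₂, fun p _ hp χ hχ A B hA hB h hh => ?_⟩
  have hp1 : (1 : ℝ) ≤ p := by exact_mod_cast (Fact.out : p.Prime).one_le
  have hp0 : (0 : ℝ) < p := by linarith
  have hmono : ∀ x y : ℝ, x ≤ y → (p : ℝ) ^ x ≤ (p : ℝ) ^ y := fun x y h =>
    Real.rpow_le_rpow_of_exponent_le hp1 h
  have hA0 : (0 : ℝ) < A.card := lt_of_lt_of_le (by positivity) hA
  have hB0 : (0 : ℝ) < B.card := lt_of_lt_of_le (by positivity) hB
  have hkp := hp₂ p (by omega)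
  set Y : ℕ → Finset (ZMod p) := lev B (hv h) with hY
  set E : ℕ → Finset (ZMod p × ZMod p) := fun j => univ.filter fun q =>
    (p : ℝ) ^ (ε / 2) ≤ (Y j).card ∧ q.2 ≠ 0 ∧ (p : ℝ) ^ (-δ₀) * (A.card * (Y j).card) <
      ‖∑ a ∈ A, ∑ y ∈ Y j, χ (a + (q.1 + q.2 * y))‖ with hE
  have hEj : ∀ j, ((E j).card : ℝ) ≤ min ((p : ℝ) ^ (1 - c)) ((p : ℝ) ^ (3 / 2 + ε / 2) / A.card) := by
    intro j
    by_cases hj : (p : ℝ) ^ (ε / 2) ≤ (Y j).card
    · have h1 := haff p (by omega) χ hχ A (Y j) ((hmono _ _ (by linarith)).trans hA) hj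
      have h2 : (E j).card ≤ {g : ZMod p × ZMod p | g.2 ≠ 0 ∧ (p : ℝ) ^ (-δ₀) * (A.card * (Y j).card) <
          ‖∑ a ∈ A, ∑ b ∈ Y j, χ (a + (g.1 + g.2 * b))‖}.ncard := by
        rw [ncard_eq]
        refine card_le_card fun q hq => ?_
        exact mem_filter.2 ⟨mem_univ _, (mem_filter.1 hq).2.2⟩
      refine (Nat.cast_le.2 h2).trans (h1.trans ?_)
      refine min_le_min le_rfl ?_
      exact div_le_div_of_nonneg_left (by positivity) hA0 (le_max_left _ _)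
    · have h1 : E j = ∅ := by
        rw [hE]
        simp only
        rw [filter_eq_empty_iff]
        intro q _ h2
        exact hj h2.1
      rw [h1, card_empty, Nat.cast_zero]
      positivity
  have hsub : (univ.filter fun q : ZMod p × ZMod p => q.2 ≠ 0 ∧ (p : ℝ) ^ (-δ) * (A.card * B.card) <
      ‖∑ a ∈ A, ∑ b ∈ B, χ (a + (q.1 + q.2 * hv h b))‖) ⊆ (range k).biUnion E := by
    intro q hq
    obtain ⟨hq2, hq3⟩ := (mem_filter.1 hq).2
    by_contra hcon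
    rw [mem_biUnion] at hcon
    push Not at hcon
    have hlevel : ∑ a ∈ A, ∑ b ∈ B, χ (a + (q.1 + q.2 * hv h b)) =
        ∑ j ∈ range k, ∑ a ∈ A, ∑ y ∈ Y j, χ (a + (q.1 + q.2 * y)) := by
      refine Eq.trans (sum_congr rfl fun a _ => ?_) sum_comm
      exact sum_lev B (hv h) k (fun y => by convert fibre h hh B y) (fun y => χ (a + (q.1 + q.2 * y)))
    have hone : ∀ j ∈ range k, ‖∑ a ∈ A, ∑ y ∈ Y j, χ (a + (q.1 + q.2 * y))‖ ≤
        (p : ℝ) ^ (-(2 * δ)) * (A.card * B.card) := by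
      intro j hj
      have hYB : ((Y j).card : ℝ) ≤ B.card := by exact_mod_cast lev_card B (hv h) j
      by_cases hj2 : (p : ℝ) ^ (ε / 2) ≤ (Y j).card
      · have h1 : ‖∑ a ∈ A, ∑ y ∈ Y j, χ (a + (q.1 + q.2 * y))‖ ≤
            (p : ℝ) ^ (-δ₀) * (A.card * (Y j).card) := by
          by_contra h2
          push Not at h2
          exact hcon j hj (mem_filter.2 ⟨mem_univ _, hj2, hq2, h2⟩)
        refine h1.trans ?_
        have h3 := hmono (-δ₀) (-(2 * δ)) (by linarith)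
        gcongr
      · push Not at hj2
        have h1 : ‖∑ a ∈ A, ∑ y ∈ Y j, χ (a + (q.1 + q.2 * y))‖ ≤ A.card * (Y j).card := by
          refine (norm_sum_le _ _).trans ?_
          refine (sum_le_card_nsmul _ _ ((Y j).card : ℝ) fun a _ => ?_).trans (by simp)
          refine (norm_sum_le _ _).trans ?_
          refine (sum_le_card_nsmul _ _ 1 fun y _ => χ.norm_le_one _).trans (by simp)
        have h2 : (p : ℝ) ^ (ε / 2) ≤ (p : ℝ) ^ (-(2 * δ)) * B.card := by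
          calc (p : ℝ) ^ (ε / 2) ≤ (p : ℝ) ^ (-(2 * δ) + ε) := hmono _ _ (by linarith)
            _ = (p : ℝ) ^ (-(2 * δ)) * (p : ℝ) ^ ε := Real.rpow_add hp0 _ _
            _ ≤ _ := by gcongr
        calc _ ≤ (A.card : ℝ) * (Y j).card := h1
          _ ≤ A.card * ((p : ℝ) ^ (-(2 * δ)) * B.card) :=
            mul_le_mul_of_nonneg_left (hj2.le.trans h2) hA0.le
          _ = _ := by ring
    have htot : ‖∑ a ∈ A, ∑ b ∈ B, χ (a + (q.1 + q.2 * hv h b))‖ ≤ (p : ℝ) ^ (-δ) * (A.card * B.card) := by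
      rw [hlevel]
      refine (norm_sum_le _ _).trans ((sum_le_sum hone).trans ?_)
      rw [sum_const, card_range, nsmul_eq_mul]
      have h4 : (p : ℝ) ^ (-δ) = (p : ℝ) ^ δ * (p : ℝ) ^ (-(2 * δ)) := by
        rw [← Real.rpow_add hp0]
        congr 1
        ring
      rw [h4, mul_assoc]
      exact mul_le_mul_of_nonneg_right hkp (by positivity)
    exact absurd hq3 (not_lt.2 htot)
  rw [ncard_eq]
  calc ((univ.filter fun q : ZMod p × ZMod p => q.2 ≠ 0 ∧ (p : ℝ) ^ (-δ) * (A.card * B.card) <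
      ‖∑ a ∈ A, ∑ b ∈ B, χ (a + (q.1 + q.2 * hv h b))‖).card : ℝ)
      ≤ ((range k).biUnion E).card := by exact_mod_cast card_le_card hsub
    _ ≤ ∑ j ∈ range k, ((E j).card : ℝ) := by exact_mod_cast card_biUnion_le
    _ ≤ ∑ j ∈ range k, min ((p : ℝ) ^ (1 - c)) ((p : ℝ) ^ (3 / 2 + ε / 2) / A.card) :=
        sum_le_sum fun j _ => hEj j
    _ = _ := by rw [sum_const, card_range, nsmul_eq_mul]

/-- **Few exceptional polynomials**, from the pencils `s + t h`. -/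
theorem few (ε : ℝ) (hε : 0 < ε) : ∃ c : ℝ, 0 < c ∧ ∃ δ : ℝ, 0 < δ ∧ ∀ k : ℕ, 1 ≤ k → ∃ p₀ : ℕ,
    ∀ (p : ℕ) [Fact p.Prime], p₀ ≤ p → ∀ χ : DirichletCharacter ℂ p, χ ≠ 1 →
    ∀ A B : Finset (ZMod p), (p : ℝ) ^ ε ≤ A.card → (p : ℝ) ^ ε ≤ B.card →
      ({f : Fin (k + 1) → ZMod p | (∃ i, i ≠ 0 ∧ f i ≠ 0) ∧ (p : ℝ) ^ (-δ) * (A.card * B.card) <
          ‖∑ a ∈ A, ∑ b ∈ B, χ (a + ∑ i, f i * b ^ (i : ℕ))‖}.ncard : ℝ) ≤
        min ((p : ℝ) ^ ((k : ℝ) - c)) ((p : ℝ) ^ ((k : ℝ) + 1 / 2 + ε) / A.card) := by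
  classical
  obtain ⟨c, hc, δ, hδ, hone⟩ := one ε hε
  obtain ⟨e, he⟩ : ∃ e : ℝ, e = min (c / 2) (ε / 2) := ⟨_, rfl⟩
  have he0 : 0 < e := by rw [he]; positivity
  have he1 : e ≤ c / 2 := by rw [he]; exact min_le_left _ _
  have he2 : e ≤ ε / 2 := by rw [he]; exact min_le_right _ _
  refine ⟨c / 2, by positivity, δ, hδ, fun k hk => ?_⟩
  obtain ⟨p₁, hp₁⟩ := hone k hk
  obtain ⟨p₂, hp₂⟩ : ∃ p₂ : ℕ, ∀ p : ℕ, p₂ ≤ p → (2 * k : ℝ) ≤ (p : ℝ) ^ e := by
    have h1 : Filter.Tendsto (fun p : ℕ => (p : ℝ) ^ e) Filter.atTop Filter.atTop :=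
      (tendsto_rpow_atTop he0).comp tendsto_natCast_atTop_atTop
    obtain ⟨p₂, h2⟩ := Filter.eventually_atTop.1 (h1.eventually_ge_atTop (2 * k : ℝ))
    exact ⟨p₂, h2⟩
  refine ⟨p₁ + p₂, fun p _ hp χ hχ A B hA hB => ?_⟩
  have hp2 : (2 : ℝ) ≤ p := by exact_mod_cast (Fact.out : p.Prime).two_le
  have hp1 : (1 : ℝ) ≤ p := by linarith
  have hp0 : (0 : ℝ) < p := by linarith
  have hmono : ∀ x y : ℝ, x ≤ y → (p : ℝ) ^ x ≤ (p : ℝ) ^ y := fun x y h =>
    Real.rpow_le_rpow_of_exponent_le hp1 h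
  have hA0 : (0 : ℝ) < A.card := lt_of_lt_of_le (by positivity) hA
  have hkp := hp₂ p (by omega)
  obtain ⟨m, hm⟩ : ∃ m : ℝ, m = min ((p : ℝ) ^ (1 - c)) ((p : ℝ) ^ (3 / 2 + ε / 2) / A.card) := ⟨_, rfl⟩
  have hm0 : 0 ≤ m := by rw [hm]; positivity
  have hm1 : m ≤ (p : ℝ) ^ (1 - c) := by rw [hm]; exact min_le_left _ _
  have hm2 : m ≤ (p : ℝ) ^ (3 / 2 + ε / 2) / A.card := by rw [hm]; exact min_le_right _ _
  have h1 := scale (p := p) (k := k) (fun s h => (p : ℝ) ^ (-δ) * (A.card * B.card) <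
    ‖∑ a ∈ A, ∑ b ∈ B, χ (a + (s + hv h b))‖) (k * m) (by positivity) (fun h hh => by
      simp only [hv_smul]
      rw [hm]
      exact hp₁ p (by omega) χ hχ A B hA hB h hh)
  have h2 : ({f : Fin (k + 1) → ZMod p | (∃ i, i ≠ 0 ∧ f i ≠ 0) ∧ (p : ℝ) ^ (-δ) * (A.card * B.card) <
      ‖∑ a ∈ A, ∑ b ∈ B, χ (a + ∑ i, f i * b ^ (i : ℕ))‖}.ncard) ≤
      {x : ZMod p × (Fin k → ZMod p) | x.2 ≠ 0 ∧ (p : ℝ) ^ (-δ) * (A.card * B.card) <
        ‖∑ a ∈ A, ∑ b ∈ B, χ (a + (x.1 + hv x.2 b))‖}.ncard := by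
    refine Set.ncard_le_ncard_of_injOn (fun f => (f 0, fun i => f i.succ)) ?_ ?_ (Set.toFinite _)
    · rintro f ⟨⟨i, hi, hfi⟩, hf⟩
      refine ⟨?_, ?_⟩
      · intro h3
        obtain ⟨j, rfl⟩ := Fin.exists_succ_eq.2 hi
        exact hfi (congrFun h3 j)
      · have h3 : ∀ b : ZMod p, ∑ i, f i * b ^ (i : ℕ) = f 0 + hv (fun i => f i.succ) b := by
          intro b
          rw [Fin.sum_univ_succ]
          unfold hv
          simp
        simp only [h3] at hf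
        exact hf
    · intro f _ g _ hfg
      simp only [Prod.mk.injEq] at hfg
      funext i
      rcases Fin.eq_zero_or_eq_succ i with rfl | ⟨j, rfl⟩
      · exact hfg.1
      · exact congrFun hfg.2 j
  refine (Nat.cast_le.2 h2).trans ?_
  obtain ⟨N, hN⟩ : ∃ N : ℝ, N = ({x : ZMod p × (Fin k → ZMod p) | x.2 ≠ 0 ∧
      (p : ℝ) ^ (-δ) * (A.card * B.card) <
        ‖∑ a ∈ A, ∑ b ∈ B, χ (a + (x.1 + hv x.2 b))‖}.ncard : ℝ) := ⟨_, rfl⟩
  have hN0 : 0 ≤ N := by rw [hN]; positivity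
  rw [← hN] at h1 ⊢
  have h3 : N ≤ 2 * k * ((p : ℝ) ^ ((k : ℝ) - 1) * m) := by
    have h4 : (p : ℝ) / 2 * N ≤ (p : ℝ) ^ k * (k * m) := by
      refine le_trans ?_ h1
      exact mul_le_mul_of_nonneg_right (by linarith) hN0
    have h5 : (p : ℝ) ^ k = p * (p : ℝ) ^ ((k : ℝ) - 1) := by
      rw [← Real.rpow_natCast]
      conv_rhs => rw [← Real.rpow_one (p : ℝ)]
      rw [Real.rpow_one, ← Real.rpow_one_add' hp0.le (by
        have : (1 : ℝ) ≤ k := by exact_mod_cast hk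
        linarith)]
      congr 1
      ring
    rw [h5] at h4
    have h6 : (p : ℝ) / 2 * N ≤ (p : ℝ) / 2 * (2 * k * ((p : ℝ) ^ ((k : ℝ) - 1) * m)) := by
      refine h4.trans (le_of_eq ?_)
      ring
    exact le_of_mul_le_mul_left h6 (by positivity)
  refine le_min ?_ ?_
  · calc N ≤ 2 * k * ((p : ℝ) ^ ((k : ℝ) - 1) * m) := h3
      _ ≤ (p : ℝ) ^ (c / 2) * ((p : ℝ) ^ ((k : ℝ) - 1) * (p : ℝ) ^ (1 - c)) := by
          have := hkp.trans (hmono _ _ he1)
          gcongr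
      _ = (p : ℝ) ^ ((k : ℝ) - c / 2) := by
          rw [← Real.rpow_add hp0, ← Real.rpow_add hp0]
          congr 1
          ring
  · calc N ≤ 2 * k * ((p : ℝ) ^ ((k : ℝ) - 1) * m) := h3
      _ ≤ (p : ℝ) ^ (ε / 2) * ((p : ℝ) ^ ((k : ℝ) - 1) * ((p : ℝ) ^ (3 / 2 + ε / 2) / A.card)) := by
          have := hkp.trans (hmono _ _ he2)
          gcongr
      _ = (p : ℝ) ^ ((k : ℝ) + 1 / 2 + ε) / A.card := by
          rw [← mul_div_assoc, ← mul_div_assoc, ← Real.rpow_add hp0, ← Real.rpow_add hp0]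
          congr 2
          ring

end Pool.Agent.V11298.PI
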